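import Pool.Agent.TH744.LR.Block

/-!
# Disjoint sensitive blocks of a Boolean function with few monomials

The coefficients are those of the multilinear polynomial over the reals. A Boolean function with fewer
than `2 ^ d` monomials has at most `2 d²` disjoint sensitive blocks at every point.
-/

set_option autoImplicit false

namespace Pool.Agent.N609.AndRank

open Finset Pool.Agent.TH744.LR

/-- a large set which contains no large member of a small family -/
theorem avoid (L d : ℕ) (K : Finset (Finset (Fin L))) (hK : K.card < 2 ^ d) :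
    ∃ J : Finset (Fin L), L ≤ 2 * J.card ∧ ∀ S ∈ K, S ⊆ J → S.card ≤ d := by
  classical
  set Big := (univ : Finset (Finset (Fin L))).filter (fun J => L ≤ 2 * J.card) with hBig
  have h1 : 2 ^ L ≤ 2 * Big.card := by
    have h2 : ((univ : Finset (Finset (Fin L))).filter (fun J => ¬ L ≤ 2 * J.card)).card ≤
        Big.card := by
      refine card_le_card_of_injOn (fun J => Jᶜ) ?_ compl_injective.injOn
      intro J hJ
      simp only [hBig, coe_filter, mem_univ, true_and, Set.mem_setOf_eq] at hJ ⊢
      rw [card_compl, Fintype.card_fin]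
      omega
    have h3 := card_filter_add_card_filter_not (s := (univ : Finset (Finset (Fin L))))
      (fun J : Finset (Fin L) => L ≤ 2 * J.card)
    rw [card_univ, Fintype.card_finset, Fintype.card_fin] at h3
    rw [← hBig] at h3
    omega
  by_contra hcon
  push Not at hcon
  have h4 : Big ⊆ (K.filter (fun S => d < S.card)).biUnion (fun S => Icc S univ) := by
    intro J hJ
    rw [hBig, mem_filter] at hJ
    obtain ⟨S, hS, hSJ, hSd⟩ := hcon J hJ.2
    rw [mem_biUnion]
    exact ⟨S, mem_filter.2 ⟨hS, hSd⟩, mem_Icc.2 ⟨hSJ, subset_univ _⟩⟩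
  have h5 : Big.card * 2 ^ (d + 1) ≤ K.card * 2 ^ L := by
    calc Big.card * 2 ^ (d + 1)
        ≤ (∑ S ∈ K.filter (fun S => d < S.card), (Icc S univ).card) * 2 ^ (d + 1) :=
          Nat.mul_le_mul_right _ ((card_le_card h4).trans card_biUnion_le)
      _ = ∑ S ∈ K.filter (fun S => d < S.card), (Icc S univ).card * 2 ^ (d + 1) := by
          rw [sum_mul]
      _ ≤ ∑ S ∈ K.filter (fun S => d < S.card), 2 ^ L := by
          refine sum_le_sum fun S hS => ?_
          rw [mem_filter] at hS
          have hSL : S.card ≤ L := by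
            have := card_le_univ S
            rwa [Fintype.card_fin] at this
          rw [card_Icc_finset (subset_univ _), card_univ, Fintype.card_fin, ← pow_add]
          exact Nat.pow_le_pow_right (by norm_num) (by omega)
      _ = (K.filter (fun S => d < S.card)).card * 2 ^ L := by
          rw [sum_const, smul_eq_mul]
      _ ≤ K.card * 2 ^ L := Nat.mul_le_mul_right _ (card_filter_le _ _)
  have h6 : 2 ^ L * 2 ^ (d + 1) ≤ 2 ^ L * (2 * K.card) := by
    calc 2 ^ L * 2 ^ (d + 1) ≤ (2 * Big.card) * 2 ^ (d + 1) := Nat.mul_le_mul_right _ h1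
      _ = 2 * (Big.card * 2 ^ (d + 1)) := by ring
      _ ≤ 2 * (K.card * 2 ^ L) := Nat.mul_le_mul_left _ h5
      _ = 2 ^ L * (2 * K.card) := by ring
  have h7 := Nat.le_of_mul_le_mul_left h6 (by positivity)
  rw [pow_succ] at h7
  omega

variable {ι : Type} [Fintype ι] [DecidableEq ι]

/-- at most `2 d²` disjoint sensitive blocks -/
theorem few_blocks {g : Finset ι → Bool} {c : Finset ι → ℝ} (h : Rep g c)
    (M : Finset (Finset ι)) (hM : ∀ S, c S ≠ 0 → S ∈ M) {d : ℕ} (hr : M.card < 2 ^ d)
    (z : Finset ι) {L : ℕ} (B : Fin L → Finset ι) (hd : ∀ i j, i ≠ j → Disjoint (B i) (B j))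
    (hB : ∀ j, g (z ∪ B j) ≠ g z) : L ≤ 2 * d ^ 2 := by
  classical
  set h' : Finset (Fin L) → Bool := fun J => g (z ∪ J.biUnion B) with hh'
  set P : Finset ι → Prop := fun S => S \ z ⊆ (univ : Finset (Fin L)).biUnion B with hP
  set t : Finset ι → Finset (Fin L) := fun S => hits univ B (S \ z) with ht
  set c' : Finset (Fin L) → ℝ := fun K => ∑ S ∈ univ.filter (fun S => P S ∧ t S = K), c S with hc'
  have hrep : Rep h' c' := by
    intro J
    have e1 : ∑ K ∈ J.powerset, c' K = ∑ S ∈ univ.filter (fun S => P S ∧ t S ⊆ J), c S := by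
      simp only [hc', sum_filter]
      rw [sum_comm]
      refine sum_congr rfl fun S _ => ?_
      by_cases hPS : P S
      · simp only [hPS, true_and]
        rw [sum_ite_eq]
        simp only [mem_powerset]
      · simp [hPS]
    rw [e1, hh', h]
    refine sum_congr ?_ fun _ _ => rfl
    ext S
    rw [mem_powerset, mem_filter]
    have e2 := subset_iff_hits (s := (univ : Finset (Fin L))) (B := B)
      (fun i _ j _ hij => hd i j hij) (subset_univ J) (S \ z)
    constructor
    · intro hS
      have h3 : S \ z ⊆ J.biUnion B := by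
        intro x hx
        rw [mem_sdiff] at hx
        rcases mem_union.1 (hS hx.1) with h4 | h4
        · exact absurd h4 hx.2
        · exact h4
      exact ⟨mem_univ _, e2.1 h3⟩
    · rintro ⟨-, h3⟩
      have h4 := e2.2 h3
      intro x hx
      by_cases hxz : x ∈ z
      · exact mem_union_left _ hxz
      · exact mem_union_right _ (h4 (mem_sdiff.2 ⟨hx, hxz⟩))
  obtain ⟨J, hJL, hJ⟩ := avoid L d (univ.filter (fun K => c' K ≠ 0)) (by
    refine lt_of_le_of_lt ?_ hr
    refine (card_le_card (t := M.image t) ?_).trans card_image_le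
    intro K hK
    rw [mem_filter] at hK
    obtain ⟨S, hS, hSc⟩ := exists_ne_zero_of_sum_ne_zero hK.2
    rw [mem_filter] at hS
    exact mem_image.2 ⟨S, hM S hSc, hS.2.2⟩)
  set g0 : Finset (Fin L) → Bool := fun K => h' (K ∩ J) with hg0
  set c0 : Finset (Fin L) → ℝ := fun K => if K ⊆ J then c' K else 0 with hc0
  have hrep0 : Rep g0 c0 := by
    intro K
    rw [hg0]
    simp only [hrep (K ∩ J), hc0]
    rw [← sum_filter]
    refine sum_congr ?_ fun _ _ => rfl
    ext S
    rw [mem_powerset, mem_filter, mem_powerset, subset_inter_iff]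
  have hkey := block_le hrep0 (d := d) (s := J) (B := fun j => {j}) (by
    intro S hS
    simp only [hc0] at hS
    have hSJ : S ⊆ J := by
      by_contra hcon
      rw [if_neg hcon] at hS
      exact hS rfl
    rw [if_pos hSJ] at hS
    exact hJ S (mem_filter.2 ⟨mem_univ _, hS⟩) hSJ) (by
    intro i _ j _ hij
    rwa [disjoint_singleton]) (by
    intro j hj
    have e1 : ({j} : Finset (Fin L)) ∩ J = {j} := by
      rw [inter_eq_left, singleton_subset_iff]
      exact hj
    simp only [hg0, hh', e1, empty_inter, singleton_biUnion, biUnion_empty, union_empty]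
    exact hB j)
  omega

end Pool.Agent.N609.AndRank
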