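import Pool.Agent.N609.AndRank.Block

/-!
# Minimal sensitive sets, and products of a finite distribution
-/

set_option autoImplicit false
set_option linter.unusedSectionVars false
set_option linter.unusedVariables false

namespace Pool.Agent.N609.AndRank

open Finset Pool.Agent.TH744.LR

variable {ι : Type} [Fintype ι] [DecidableEq ι]

theorem sdiff_sub {A B C : Finset ι} : A \ B ⊆ C ↔ A ⊆ B ∪ C := by
  constructor
  · intro h x hx
    by_cases hB : x ∈ B
    · exact mem_union_left _ hB
    · exact mem_union_right _ (h (mem_sdiff.2 ⟨hx, hB⟩))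
  · intro h x hx
    rw [mem_sdiff] at hx
    rcases mem_union.1 (h hx.1) with h1 | h1
    · exact absurd h1 hx.2
    · exact h1

/-- `W` is a minimal set with `g (z ∪ W) ≠ g z` -/
def MinS (g : Finset ι → Bool) (z W : Finset ι) : Prop :=
  g (z ∪ W) ≠ g z ∧ ∀ V, V ⊂ W → g (z ∪ V) = g z

theorem exists_min (g : Finset ι → Bool) (z B : Finset ι) (h : g (z ∪ B) ≠ g z) :
    ∃ W ⊆ B, MinS g z W := by
  induction B using Finset.strongInduction with
  | H B ih =>
    by_cases hm : ∀ V, V ⊂ B → g (z ∪ V) = g z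
    · exact ⟨B, subset_refl _, h, hm⟩
    · push Not at hm
      obtain ⟨V, hV, hVg⟩ := hm
      obtain ⟨W, hW, hWm⟩ := ih V hV hVg
      exact ⟨W, hW.trans hV.subset, hWm⟩

theorem MinS.disj {g : Finset ι → Bool} {z W : Finset ι} (h : MinS g z W) : Disjoint W z := by
  rw [disjoint_left]
  intro x hx hxz
  refine h.1 ?_
  have h1 := h.2 (W.erase x) (erase_ssubset hx)
  rw [← h1]
  congr 1
  ext y
  simp only [mem_union, mem_erase]
  constructor
  · rintro (h2 | h2)
    · exact Or.inl h2
    · by_cases hy : y = x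
      · left; rw [hy]; exact hxz
      · exact Or.inr ⟨hy, h2⟩
  · rintro (h2 | h2)
    · exact Or.inl h2
    · exact Or.inr h2.2

theorem MinS.nonempty {g : Finset ι → Bool} {z W : Finset ι} (h : MinS g z W) : W.Nonempty := by
  rw [nonempty_iff_ne_empty]
  rintro rfl
  exact h.1 (by rw [union_empty])

theorem rep_shift {g : Finset ι → Bool} {c : Finset ι → ℝ} (h : Rep g c) (z : Finset ι) :
    Rep (fun V => g (z ∪ V)) (fun V => ∑ S ∈ univ.filter (fun S => S \ z = V), c S) := by
  intro T
  have e1 : ∑ V ∈ T.powerset, ∑ S ∈ univ.filter (fun S : Finset ι => S \ z = V), c S =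
      ∑ S ∈ univ.filter (fun S : Finset ι => S \ z ⊆ T), c S := by
    simp only [sum_filter]
    rw [sum_comm]
    refine sum_congr rfl fun S _ => ?_
    rw [sum_ite_eq]
    simp only [mem_powerset]
  rw [e1]
  simp only [h (z ∪ T)]
  refine sum_congr ?_ fun _ _ => rfl
  ext S
  rw [mem_powerset, mem_filter, sdiff_sub]
  simp

theorem coef_ne {g : Finset ι → Bool} {c : Finset ι → ℝ} (h : Rep g c) {W : Finset ι}
    (h1 : g W ≠ g ∅) (h2 : ∀ V, V ⊂ W → g V = g ∅) : c W ≠ 0 := by
  have hWne : W.Nonempty := by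
    rw [nonempty_iff_ne_empty]
    rintro rfl
    exact h1 rfl
  have key : ∀ S : Finset ι, S ⊂ W → S.Nonempty → c S = 0 := by
    intro S
    induction S using Finset.strongInduction with
    | H S ih =>
      intro hS hSne
      have h3 := h S
      rw [← add_sum_erase _ _ (mem_powerset.2 (subset_refl S)),
        sum_eq_single ∅, h.empty, h2 S hS] at h3
      · linarith
      · intro U hU hUne
        rw [mem_erase, mem_powerset] at hU
        have hUS : U ⊂ S := Finset.ssubset_iff_subset_ne.2 ⟨hU.2, hU.1⟩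
        exact ih U hUS (hUS.trans hS) (nonempty_iff_ne_empty.2 hUne)
      · intro hh
        exfalso
        apply hh
        rw [mem_erase, mem_powerset]
        exact ⟨fun hc => (nonempty_iff_ne_empty.1 hSne) hc.symm, empty_subset _⟩
  intro hc
  have h3 := h W
  rw [← add_sum_erase _ _ (mem_powerset.2 (subset_refl W)),
    sum_eq_single ∅, h.empty, hc, zero_add] at h3
  · refine h1 ?_
    revert h3
    unfold bv
    cases g W <;> cases g ∅ <;> simp
  · intro U hU hUne
    rw [mem_erase, mem_powerset] at hU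
    exact key U (Finset.ssubset_iff_subset_ne.2 ⟨hU.2, hU.1⟩) (nonempty_iff_ne_empty.2 hUne)
  · intro hh
    exfalso
    apply hh
    rw [mem_erase, mem_powerset]
    exact ⟨fun hc => (nonempty_iff_ne_empty.1 hWne) hc.symm, empty_subset _⟩

theorem MinS.mon {g : Finset ι → Bool} {c : Finset ι → ℝ} (h : Rep g c) {z W : Finset ι}
    (hW : MinS g z W) : ∃ S, c S ≠ 0 ∧ S \ z = W := by
  have h1 := coef_ne (rep_shift h z) (W := W) (by simpa using hW.1) (by simpa using hW.2)
  obtain ⟨S, hS, hSc⟩ := exists_ne_zero_of_sum_ne_zero h1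
  rw [mem_filter] at hS
  exact ⟨S, hSc, hS.2⟩

/-- the union of a family -/
def UU {s : ℕ} (W : Fin s → Finset ι) : Finset ι := univ.filter (fun x => ∃ l, x ∈ W l)

/-- the points which are covered at least twice -/
def DD {s : ℕ} (W : Fin s → Finset ι) : Finset ι :=
  univ.filter (fun x => ∃ l l', l ≠ l' ∧ x ∈ W l ∧ x ∈ W l')

theorem mem_UU {s : ℕ} {W : Fin s → Finset ι} {x : ι} : x ∈ UU W ↔ ∃ l, x ∈ W l := by
  simp [UU]

theorem mem_DD {s : ℕ} {W : Fin s → Finset ι} {x : ι} :
    x ∈ DD W ↔ ∃ l l', l ≠ l' ∧ x ∈ W l ∧ x ∈ W l' := by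
  simp [DD]

theorem UU_insert {s : ℕ} (p : Fin (s + 1)) (v : Finset ι) (W : Fin s → Finset ι) :
    UU (p.insertNth (α := fun _ => Finset ι) v W) = v ∪ UU W := by
  ext x
  rw [mem_UU, mem_union, mem_UU]
  constructor
  · rintro ⟨l, hl⟩
    rcases Fin.eq_self_or_eq_succAbove p l with rfl | ⟨l, rfl⟩
    · rw [Fin.insertNth_apply_same] at hl
      exact Or.inl hl
    · rw [Fin.insertNth_apply_succAbove] at hl
      exact Or.inr ⟨l, hl⟩
  · rintro (h | ⟨l, hl⟩)
    · exact ⟨p, by rw [Fin.insertNth_apply_same]; exact h⟩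
    · exact ⟨p.succAbove l, by rw [Fin.insertNth_apply_succAbove]; exact hl⟩

theorem DD_insert {s : ℕ} (p : Fin (s + 1)) (v : Finset ι) (W : Fin s → Finset ι) :
    DD (p.insertNth (α := fun _ => Finset ι) v W) = DD W ∪ (v ∩ UU W) := by
  ext x
  rw [mem_DD, mem_union, mem_inter, mem_UU, mem_DD]
  constructor
  · rintro ⟨l, l', hne, hl, hl'⟩
    rcases Fin.eq_self_or_eq_succAbove p l with rfl | ⟨l, rfl⟩
    · rw [Fin.insertNth_apply_same] at hl
      rcases Fin.eq_self_or_eq_succAbove l l' with rfl | ⟨l', rfl⟩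
      · exact absurd rfl hne
      · rw [Fin.insertNth_apply_succAbove] at hl'
        exact Or.inr ⟨hl, l', hl'⟩
    · rw [Fin.insertNth_apply_succAbove] at hl
      rcases Fin.eq_self_or_eq_succAbove p l' with rfl | ⟨l', rfl⟩
      · rw [Fin.insertNth_apply_same] at hl'
        exact Or.inr ⟨hl', l, hl⟩
      · rw [Fin.insertNth_apply_succAbove] at hl'
        exact Or.inl ⟨l, l', fun h => hne (by rw [h]), hl, hl'⟩
  · rintro (⟨l, l', hne, hl, hl'⟩ | ⟨hv, l, hl⟩)
    · refine ⟨p.succAbove l, p.succAbove l', fun h => hne (Fin.succAbove_right_injective h), ?_, ?_⟩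
      · rw [Fin.insertNth_apply_succAbove]; exact hl
      · rw [Fin.insertNth_apply_succAbove]; exact hl'
    · refine ⟨p, p.succAbove l, (Fin.succAbove_ne p l).symm, ?_, ?_⟩
      · rw [Fin.insertNth_apply_same]; exact hv
      · rw [Fin.insertNth_apply_succAbove]; exact hl

/-- the expectation for `s` independent samples of the distribution `π` -/
noncomputable def Ex (π : Finset ι → ℝ) (s : ℕ) (φ : (Fin s → Finset ι) → ℝ) : ℝ :=
  ∑ W : Fin s → Finset ι, (∏ l, π (W l)) * φ W

theorem Ex_succ (π : Finset ι → ℝ) (s : ℕ) (p : Fin (s + 1)) (φ : (Fin (s + 1) → Finset ι) → ℝ) :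
    Ex π (s + 1) φ =
      ∑ v, π v * Ex π s (fun W => φ (p.insertNth (α := fun _ => Finset ι) v W)) := by
  unfold Ex
  rw [← (Fin.insertNthEquiv (fun _ => Finset ι) p).sum_comp, Fintype.sum_prod_type]
  refine sum_congr rfl fun v _ => ?_
  rw [mul_sum]
  refine sum_congr rfl fun W _ => ?_
  rw [show (Fin.insertNthEquiv (fun _ => Finset ι) p) (v, W) =
    p.insertNth (α := fun _ => Finset ι) v W from rfl, Fin.prod_univ_succAbove _ p]
  simp only [Fin.insertNth_apply_same, Fin.insertNth_apply_succAbove]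
  ring

theorem Ex_comm (π : Finset ι → ℝ) (s : ℕ) {κ : Type} (t : Finset κ) (w : κ → ℝ)
    (φ : κ → (Fin s → Finset ι) → ℝ) :
    ∑ v ∈ t, w v * Ex π s (φ v) = Ex π s (fun W => ∑ v ∈ t, w v * φ v W) := by
  unfold Ex
  simp only [mul_sum]
  rw [sum_comm]
  refine sum_congr rfl fun v _ => ?_
  refine sum_congr rfl fun W _ => ?_
  ring

theorem Ex_mono {π : Finset ι → ℝ} (hπ : ∀ v, 0 ≤ π v) {s : ℕ} {φ ψ : (Fin s → Finset ι) → ℝ}
    (h : ∀ W, (∀ l, π (W l) ≠ 0) → φ W ≤ ψ W) : Ex π s φ ≤ Ex π s ψ := by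
  unfold Ex
  refine sum_le_sum fun W _ => ?_
  by_cases hW : ∀ l, π (W l) ≠ 0
  · exact mul_le_mul_of_nonneg_left (h W hW) (prod_nonneg fun l _ => hπ _)
  · push Not at hW
    obtain ⟨l, hl⟩ := hW
    rw [prod_eq_zero (mem_univ l) hl, zero_mul, zero_mul]

theorem Ex_nonneg {π : Finset ι → ℝ} (hπ : ∀ v, 0 ≤ π v) {s : ℕ} {φ : (Fin s → Finset ι) → ℝ}
    (h : ∀ W, 0 ≤ φ W) : 0 ≤ Ex π s φ :=
  sum_nonneg fun W _ => mul_nonneg (prod_nonneg fun l _ => hπ _) (h W)

theorem Ex_const {π : Finset ι → ℝ} (h1 : ∑ v, π v = 1) (s : ℕ) (a : ℝ) :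
    Ex π s (fun _ => a) = a := by
  induction s with
  | zero => simp [Ex]
  | succ s ih =>
    rw [Ex_succ π s 0]
    simp only [ih]
    rw [← sum_mul, h1, one_mul]

theorem Ex_add (π : Finset ι → ℝ) (s : ℕ) (φ ψ : (Fin s → Finset ι) → ℝ) :
    Ex π s (fun W => φ W + ψ W) = Ex π s φ + Ex π s ψ := by
  unfold Ex
  simp only [mul_add]
  rw [sum_add_distrib]

theorem Ex_mul (π : Finset ι → ℝ) (s : ℕ) (a : ℝ) (φ : (Fin s → Finset ι) → ℝ) :
    Ex π s (fun W => a * φ W) = a * Ex π s φ := by
  unfold Ex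
  rw [mul_sum]
  exact sum_congr rfl fun W _ => by ring

/-- the probability that a sample contains `T` -/
noncomputable def pr (π : Finset ι → ℝ) (T : Finset ι) : ℝ :=
  ∑ v, π v * (if T ⊆ v then 1 else 0)

theorem prob_U {π : Finset ι → ℝ} (hπ : ∀ v, 0 ≤ π v) (h1 : ∑ v, π v = 1) {η : ℝ}
    {T : Finset ι} (hT : T.Nonempty) (N : ℕ)
    (HU : ∀ s, s < N → ∀ W : Fin s → Finset ι, (∀ l, π (W l) ≠ 0) → (T \ UU W).Nonempty →
      pr π (T \ UU W) ≤ η) (hη : 0 ≤ η) :
    ∀ s, s ≤ N → Ex π s (fun W => if T ⊆ UU W then 1 else 0) ≤ s * η := by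
  intro s
  induction s with
  | zero =>
    intro _
    have e : ∀ W : Fin 0 → Finset ι, (if T ⊆ UU W then (1 : ℝ) else 0) = 0 := by
      intro W
      rw [if_neg]
      intro h
      obtain ⟨x, hx⟩ := hT
      have := h hx
      rw [mem_UU] at this
      obtain ⟨l, _⟩ := this
      exact l.elim0
    simp only [e]
    rw [Ex_const h1]
    simp
  | succ s ih =>
    intro hs
    rw [Ex_succ π s 0, Ex_comm]
    have h2 : Ex π s (fun W => ∑ v, π v *
        (if T ⊆ UU (Fin.insertNth (α := fun _ => Finset ι) 0 v W) then (1 : ℝ) else 0)) ≤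
        Ex π s (fun W => (if T ⊆ UU W then (1 : ℝ) else 0) + η) := by
      refine Ex_mono hπ fun W hW => ?_
      simp only [UU_insert]
      by_cases hTU : T ⊆ UU W
      · rw [if_pos hTU]
        have : ∀ v : Finset ι, (if T ⊆ v ∪ UU W then (1 : ℝ) else 0) = 1 := fun v =>
          if_pos (hTU.trans subset_union_right)
        simp only [this, mul_one, h1]
        linarith
      · rw [if_neg hTU, zero_add]
        have hne : (T \ UU W).Nonempty := by
          rw [sdiff_nonempty]; exact hTU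
        refine le_trans (le_of_eq ?_) (HU s (by omega) W hW hne)
        unfold pr
        refine sum_congr rfl fun v _ => ?_
        congr 1
        have : T ⊆ v ∪ UU W ↔ T \ UU W ⊆ v := by
          rw [sdiff_sub, union_comm]
        simp only [this]
    refine h2.trans ?_
    rw [Ex_add, Ex_const h1]
    have := ih (by omega)
    push_cast
    linarith

theorem DD_subset_UU {s : ℕ} (W : Fin s → Finset ι) : DD W ⊆ UU W := by
  intro x hx
  rw [mem_DD] at hx
  rw [mem_UU]
  obtain ⟨l, _, _, hl, _⟩ := hx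
  exact ⟨l, hl⟩

theorem prob_D {π : Finset ι → ℝ} (hπ : ∀ v, 0 ≤ π v) (h1 : ∑ v, π v = 1) {η : ℝ}
    {T : Finset ι} (hT : T.Nonempty) (N : ℕ)
    (HU : ∀ s, s < N → ∀ W : Fin s → Finset ι, (∀ l, π (W l) ≠ 0) → (T \ UU W).Nonempty →
      pr π (T \ UU W) ≤ η)
    (HD : ∀ s, s < N → ∀ W : Fin s → Finset ι, (∀ l, π (W l) ≠ 0) → (T \ DD W).Nonempty →
      pr π (T \ DD W) ≤ η) (hη : 0 ≤ η) :
    ∀ s, s ≤ N → Ex π s (fun W => if T ⊆ DD W then 1 else 0) ≤ (s : ℝ) ^ 2 * η ^ 2 := by
  intro s
  induction s with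
  | zero =>
    intro _
    have e : ∀ W : Fin 0 → Finset ι, (if T ⊆ DD W then (1 : ℝ) else 0) = 0 := by
      intro W
      rw [if_neg]
      intro h
      obtain ⟨x, hx⟩ := hT
      have := h hx
      rw [mem_DD] at this
      obtain ⟨l, _⟩ := this
      exact l.elim0
    simp only [e]
    rw [Ex_const h1]
    simp
  | succ s ih =>
    intro hs
    rw [Ex_succ π s 0, Ex_comm]
    have h2 : Ex π s (fun W => ∑ v, π v *
        (if T ⊆ DD (Fin.insertNth (α := fun _ => Finset ι) 0 v W) then (1 : ℝ) else 0)) ≤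
        Ex π s (fun W => (if T ⊆ DD W then (1 : ℝ) else 0) +
          η * (if T ⊆ UU W then (1 : ℝ) else 0)) := by
      refine Ex_mono hπ fun W hW => ?_
      simp only [DD_insert]
      by_cases hTD : T ⊆ DD W
      · rw [if_pos hTD, if_pos (hTD.trans (DD_subset_UU W))]
        have : ∀ v : Finset ι, (if T ⊆ DD W ∪ v ∩ UU W then (1 : ℝ) else 0) = 1 := fun v =>
          if_pos (hTD.trans subset_union_left)
        simp only [this, mul_one, h1]
        linarith
      · rw [if_neg hTD, zero_add]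
        have hne : (T \ DD W).Nonempty := by
          rw [sdiff_nonempty]; exact hTD
        by_cases hTU : T ⊆ UU W
        · rw [if_pos hTU, mul_one]
          refine le_trans (le_of_eq ?_) (HD s (by omega) W hW hne)
          unfold pr
          refine sum_congr rfl fun v _ => ?_
          congr 1
          have : T ⊆ DD W ∪ v ∩ UU W ↔ T \ DD W ⊆ v := by
            rw [sdiff_sub]
            constructor
            · intro h
              exact h.trans (union_subset_union_right inter_subset_left)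
            · intro h x hx
              rcases mem_union.1 (h hx) with h3 | h3
              · exact mem_union_left _ h3
              · exact mem_union_right _ (mem_inter.2 ⟨h3, hTU hx⟩)
          simp only [this]
        · rw [if_neg hTU, mul_zero]
          refine le_of_eq (sum_eq_zero fun v _ => ?_)
          rw [if_neg, mul_zero]
          intro h
          refine hTU fun x hx => ?_
          rcases mem_union.1 (h hx) with h3 | h3
          · exact DD_subset_UU W h3
          · exact (mem_inter.1 h3).2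
    refine h2.trans ?_
    rw [Ex_add, Ex_mul]
    have h3 := ih (by omega)
    have h4 := prob_U hπ h1 hT N HU hη s (by omega)
    have h5 := mul_le_mul_of_nonneg_left h4 hη
    push_cast
    have h6 : (0 : ℝ) ≤ s := Nat.cast_nonneg s
    nlinarith [mul_nonneg h6 (sq_nonneg η), sq_nonneg η]

end Pool.Agent.N609.AndRank
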