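import Pool.Agent.N609.AndRank.Tree

/-!
# Functions of the meet in a finite semilattice
-/

set_option autoImplicit false
set_option linter.unusedSectionVars false
set_option linter.unusedVariables false

namespace Pool.Agent.N609.AndRank

open Finset Pool.Agent.TH744.LR

section semi

variable {P : Type} [Fintype P] [DecidableEq P] [SemilatticeInf P] [DecidableLE P]

/-- the zeta matrix -/
noncomputable def Zt (P : Type) [Fintype P] [DecidableEq P] [SemilatticeInf P]
    [DecidableLE P] : Matrix P P ℝ :=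
  Matrix.of fun a s => if s ≤ a then 1 else 0

theorem Zt_mulVec (v : P → ℝ) (a : P) :
    (Zt P).mulVec v a = ∑ s ∈ univ.filter (fun s => s ≤ a), v s := by
  simp [Zt, Matrix.mulVec, dotProduct, sum_filter]

theorem Zt_inj (v : P → ℝ) (h : (Zt P).mulVec v = 0) : v = 0 := by
  funext a
  induction a using WellFoundedLT.induction with
  | ind a ih =>
    have h1 := congrFun h a
    rw [Zt_mulVec] at h1
    have h2 : ∑ s ∈ univ.filter (fun s => s ≤ a), v s = v a := by
      refine sum_eq_single a ?_ ?_
      · intro s hs hne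
        rw [mem_filter] at hs
        exact ih s (lt_of_le_of_ne hs.2 hne)
      · intro hh
        exact absurd (by simp) hh
    rw [h2] at h1
    exact h1

theorem Zt_unit : IsUnit (Zt P) := by
  rw [← Matrix.mulVec_injective_iff_isUnit]
  intro v w hvw
  have : (Zt P).mulVec (v - w) = 0 := by
    rw [Matrix.mulVec_sub, hvw, sub_self]
  exact sub_eq_zero.1 (Zt_inj _ this)

theorem exists_coef (f : P → Bool) :
    ∃ α : P → ℝ, ∀ a, bv (f a) = ∑ s ∈ univ.filter (fun s => s ≤ a), α s := by
  have h1 := Matrix.mulVec_surjective_iff_isUnit.2 (Zt_unit (P := P))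
  obtain ⟨α, hα⟩ := h1 (fun a => bv (f a))
  refine ⟨α, fun a => ?_⟩
  rw [← Zt_mulVec, hα]

theorem rank_eq {f : P → Bool} {α : P → ℝ}
    (hα : ∀ a, bv (f a) = ∑ s ∈ univ.filter (fun s => s ≤ a), α s) :
    (Matrix.of (fun x y : P => if f (x ⊓ y) then (1 : ℝ) else 0)).rank =
      (univ.filter (fun s => α s ≠ 0)).card := by
  have e : Matrix.of (fun x y : P => if f (x ⊓ y) then (1 : ℝ) else 0) =
      Zt P * Matrix.diagonal α * (Zt P).transpose := by
    ext x y
    rw [Matrix.mul_apply]
    simp only [Matrix.mul_diagonal, Matrix.transpose_apply, Matrix.of_apply, Zt]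
    have h1 : (if f (x ⊓ y) then (1 : ℝ) else 0) = bv (f (x ⊓ y)) := rfl
    rw [h1, hα, sum_filter]
    refine sum_congr rfl fun s _ => ?_
    by_cases h2 : s ≤ x
    · by_cases h3 : s ≤ y
      · simp [h2, h3]
      · simp [h2, h3]
    · simp [h2]
  rw [e, Matrix.rank_mul_eq_left_of_isUnit_det, Matrix.rank_mul_eq_right_of_isUnit_det,
    Matrix.rank_diagonal, Fintype.card_subtype]
  · exact (Matrix.isUnit_iff_isUnit_det _).1 Zt_unit
  · rw [Matrix.det_transpose]
    exact (Matrix.isUnit_iff_isUnit_det _).1 Zt_unit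

/-- the set of the elements which are not above `a` -/
def nup (a : P) : Finset P := univ.filter (fun m => ¬ a ≤ m)

theorem mem_nup {a m : P} : m ∈ nup a ↔ ¬ a ≤ m := by simp [nup]

/-- the extension of `f` to all sets -/
def hatf (f : P → Bool) (T : Finset P) : Bool :=
  if h : (Tᶜ).Nonempty then f (Tᶜ.inf' h id) else false

theorem hatf_nup (f : P → Bool) (a b : P) : hatf f (nup a ∩ nup b) = f (a ⊓ b) := by
  have ha : a ∈ (nup a ∩ nup b)ᶜ := by
    rw [mem_compl, mem_inter, mem_nup]
    exact fun h => h.1 le_rfl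
  have hb : b ∈ (nup a ∩ nup b)ᶜ := by
    rw [mem_compl, mem_inter, mem_nup, mem_nup]
    exact fun h => h.2 le_rfl
  have hne : ((nup a ∩ nup b)ᶜ).Nonempty := ⟨a, ha⟩
  rw [hatf, dif_pos hne]
  congr 1
  refine le_antisymm (le_inf (inf'_le id ha) (inf'_le id hb)) ?_
  rw [le_inf'_iff]
  intro m hm
  rw [mem_compl, mem_inter, mem_nup, mem_nup, not_and_or, not_not, not_not] at hm
  rcases hm with h | h
  · exact inf_le_left.trans h
  · exact inf_le_right.trans h

theorem hatf_rep {f : P → Bool} {α : P → ℝ}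
    (hα : ∀ a, bv (f a) = ∑ s ∈ univ.filter (fun s => s ≤ a), α s) :
    Rep (hatf f) (fun S => ∑ s ∈ univ.filter (fun s => nup s = S), α s -
      if S = univ then ∑ s, α s else 0) := by
  intro T
  rw [sum_sub_distrib]
  have e1 : ∑ S ∈ T.powerset, ∑ s ∈ univ.filter (fun s : P => nup s = S), α s =
      ∑ s ∈ univ.filter (fun s : P => nup s ⊆ T), α s := by
    simp only [sum_filter]
    rw [sum_comm]
    refine sum_congr rfl fun s _ => ?_
    rw [sum_ite_eq]
    simp only [mem_powerset]
  rw [e1]
  by_cases hT : (Tᶜ).Nonempty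
  · rw [hatf, dif_pos hT, hα]
    have e2 : ∑ S ∈ T.powerset, (if S = univ then ∑ s, α s else 0) = 0 := by
      refine sum_eq_zero fun S hS => ?_
      rw [if_neg]
      rintro rfl
      rw [mem_powerset, univ_subset_iff] at hS
      rw [hS] at hT
      simp at hT
    rw [e2, sub_zero]
    refine sum_congr ?_ fun _ _ => rfl
    ext s
    simp only [mem_filter, mem_univ, true_and, le_inf'_iff, mem_compl, id]
    constructor
    · intro h m hm
      rw [mem_nup] at hm
      by_contra hc
      exact hm (h m hc)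
    · intro h m hm
      by_contra hc
      exact hm (h (mem_nup.2 hc))
  · rw [hatf, dif_neg hT]
    rw [not_nonempty_iff_eq_empty, compl_eq_empty_iff] at hT
    subst hT
    have e2 : ∑ S ∈ (univ : Finset P).powerset, (if S = univ then ∑ s, α s else 0) =
        ∑ s, α s := by
      rw [sum_ite_eq' _ _ (fun _ => ∑ s, α s)]
      simp
    rw [e2]
    simp [bv]

/-- **Protocols for functions of the meet.** -/
theorem semi_main (f : P → Bool) (d : ℕ) (hd : 1 ≤ d)
    (hr : (Matrix.of (fun x y : P => if f (x ⊓ y) then (1 : ℝ) else 0)).rank + 1 < 2 ^ d) :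
    Prot (fun x y : P => f (x ⊓ y)) (1152 * d ^ 11) := by
  obtain ⟨α, hα⟩ := exists_coef f
  rw [rank_eq hα] at hr
  set M : Finset (Finset P) := insert univ ((univ.filter (fun s => α s ≠ 0)).image nup) with hM
  have hMc : M.card < 2 ^ d := by
    refine lt_of_le_of_lt ((card_insert_le _ _).trans ?_) hr
    exact Nat.add_le_add_right card_image_le 1
  have hsupp : ∀ S : Finset P, (∑ s ∈ univ.filter (fun s => nup s = S), α s -
      if S = univ then ∑ s, α s else 0) ≠ 0 → S ∈ M := by
    intro S hS
    by_cases h1 : S = univ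
    · rw [h1, hM]
      exact mem_insert_self _ _
    · rw [if_neg h1, sub_zero] at hS
      obtain ⟨s, hs, hsα⟩ := exists_ne_zero_of_sum_ne_zero hS
      rw [mem_filter] at hs
      rw [hM, ← hs.2]
      exact mem_insert_of_mem (mem_image_of_mem _ (mem_filter.2 ⟨mem_univ _, hsα⟩))
  have h1 := main (hatf_rep hα) hsupp hd hMc
  have h2 := h1.lift (X' := P) (Y' := P) nup nup
  simp only [hatf_nup] at h2
  exact h2

end semi

end Pool.Agent.N609.AndRank
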