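import Pool.Agent.N609.AndRank.Mix
import Pool.Agent.N609.AndRank.Semi

/-!
# Compositions with inner functions which are not of the form `u(x) + v(y)`
-/

set_option autoImplicit false
set_option linter.unusedSectionVars false
set_option linter.unusedVariables false

namespace Pool.Agent.N609.AndRank

open Finset Pool.Agent.TH744 Pool.Agent.TH744.LR

/-- the conjunction of two bits is a submatrix -/
def HasAnd {X Y : Type} (f : X → Y → Bool) (x0 x1 : X) (y0 y1 : Y) : Prop :=
  f x1 y1 = true ∧ f x0 y0 = false ∧ f x0 y1 = false ∧ f x1 y0 = false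

theorem exists_hasAnd {X Y : Type} (f : X → Y → Bool)
    (h : ¬ ∃ (u : X → Bool) (v : Y → Bool), ∀ x y, f x y = xor (u x) (v y)) :
    ∃ (s : Bool) (x0 x1 : X) (y0 y1 : Y), HasAnd (fun x y => xor s (f x y)) x0 x1 y0 y1 := by
  by_contra hno
  push Not at hno
  apply h
  rcases isEmpty_or_nonempty X with hX | ⟨⟨x0⟩⟩
  · exact ⟨fun _ => true, fun _ => true, fun x => (hX.false x).elim⟩
  rcases isEmpty_or_nonempty Y with hY | ⟨⟨y0⟩⟩
  · exact ⟨fun _ => true, fun _ => true, fun x y => (hY.false y).elim⟩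
  refine ⟨fun x => f x y0, fun y => xor (f x0 y) (f x0 y0), fun x y => ?_⟩
  have key : ∀ p q r t : Bool,
      ¬ (xor false p = true ∧ xor false t = false ∧ xor false r = false ∧ xor false q = false) →
      ¬ (xor false r = true ∧ xor false q = false ∧ xor false p = false ∧ xor false t = false) →
      ¬ (xor false q = true ∧ xor false r = false ∧ xor false t = false ∧ xor false p = false) →
      ¬ (xor false t = true ∧ xor false p = false ∧ xor false q = false ∧ xor false r = false) →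
      ¬ (xor true p = true ∧ xor true t = false ∧ xor true r = false ∧ xor true q = false) →
      ¬ (xor true r = true ∧ xor true q = false ∧ xor true p = false ∧ xor true t = false) →
      ¬ (xor true q = true ∧ xor true r = false ∧ xor true t = false ∧ xor true p = false) →
      ¬ (xor true t = true ∧ xor true p = false ∧ xor true q = false ∧ xor true r = false) →
      p = xor q (xor r t) := by
    intro p q r t
    cases p <;> cases q <;> cases r <;> cases t <;> simp
  exact key _ _ _ _ (hno false x0 x y0 y) (hno false x x0 y0 y) (hno false x0 x y y0)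
    (hno false x x0 y y0) (hno true x0 x y0 y) (hno true x x0 y0 y) (hno true x0 x y y0)
    (hno true x x0 y y0)

theorem and_type {X Y : Type} {f : X → Y → Bool} {x0 x1 : X} {y0 y1 : Y}
    (h : HasAnd f x0 x1 y0 y1) (h1 : ¬ Rows3 f) (h2 : ¬ Rows3 (fun y x => f x y)) (x : X) (y : Y) :
    f x y = (f x y1 && f x1 y) := by
  obtain ⟨h11, h00, h01, h10⟩ := h
  have hx : f x = f x0 ∨ f x = f x1 := by
    by_contra hc
    push Not at hc
    refine h1 ⟨x0, x1, x, ?_, hc.1.symm, hc.2.symm⟩
    intro he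
    have := congrFun he y1
    rw [h01, h11] at this
    exact absurd this (by simp)
  have hy : (fun x => f x y) = (fun x => f x y0) ∨ (fun x => f x y) = (fun x => f x y1) := by
    by_contra hc
    push Not at hc
    refine h2 ⟨y0, y1, y, ?_, hc.1.symm, hc.2.symm⟩
    intro he
    have := congrFun he x1
    simp only at this
    rw [h10, h11] at this
    exact absurd this (by simp)
  rcases hx with hx | hx <;> rcases hy with hy | hy
  · have e1 : f x0 y = f x0 y0 := congrFun hy x0
    have e2 : f x1 y = f x1 y0 := congrFun hy x1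
    rw [hx, e1, e2, h00, h01, h10]
    rfl
  · have e1 : f x0 y = f x0 y1 := congrFun hy x0
    have e2 : f x1 y = f x1 y1 := congrFun hy x1
    rw [hx, e1, e2, h11, h01]
    rfl
  · have e2 : f x1 y = f x1 y0 := congrFun hy x1
    rw [hx, e2, h10, h11]
    rfl
  · have e2 : f x1 y = f x1 y1 := congrFun hy x1
    rw [hx, e2, h11]
    rfl

theorem Prot.flip {X Y : Type} {F : X → Y → Bool} {c : ℕ} (h : Prot F c) (s : Bool) :
    Prot (fun x y => xor s (F x y)) c := by
  obtain ⟨ow, a, b, out, h⟩ := h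
  exact ⟨ow, a, b, fun t => xor s (out t), fun x y => by simp only [h x y]⟩

theorem dRow_pos {X Y : Type} [Fintype X] [Fintype Y] {f : X → Y → Bool} {x0 x1 : X} {y0 y1 : Y}
    (h : HasAnd f x0 x1 y0 y1) : 1 ≤ (dRow f x0).rank := by
  classical
  by_contra hlt
  have h0 : (dRow f x0).rank = 0 := by omega
  have h2 : (dRow f x0).mulVecLin = 0 := by
    rw [Matrix.rank, Module.finrank_eq_zero_iff_of_free] at h0
    have h2 : LinearMap.range (dRow f x0).mulVecLin = ⊥ := by
      rw [← Submodule.subsingleton_iff_eq_bot]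
      exact h0
    rwa [LinearMap.range_eq_bot] at h2
  have h3 : (dRow f x0).mulVecLin (Pi.single y1 1) = 0 := by rw [h2]; rfl
  rw [Matrix.mulVecLin_apply, Matrix.mulVec_single_one] at h3
  have h4 := congrFun h3 x1
  obtain ⟨h11, h00, h01, h10⟩ := h
  simp [dRow, cm, h11, h01, bv] at h4

theorem rank_flip_le {X Y : Type} [Fintype X] [Fintype Y] (f : X → Y → Bool) (s : Bool) :
    (cm f).rank ≤ (cm (fun x y => xor s (f x y))).rank + 1 := by
  cases s
  · simp
  · have e : cm f = (-1 : ℝ) • cm (fun x y => xor true (f x y)) +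
        Matrix.vecMulVec (fun _ => (1 : ℝ)) (fun _ => 1) := by
      ext x y
      have h0 : ∀ p : Bool, bv p = (-1 : ℝ) * bv (xor true p) + 1 * 1 := by
        intro p
        cases p <;> simp [bv]
      exact h0 (f x y)
    have h1 : ((-1 : ℝ) • cm (fun x y => xor true (f x y))).rank ≤
        (cm (fun x y => xor true (f x y))).rank := by
      classical
      have h3 : (-1 : ℝ) • cm (fun x y => xor true (f x y)) =
          (Matrix.diagonal (fun _ : X => (-1 : ℝ))) * cm (fun x y => xor true (f x y)) := by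
        ext x y
        rw [Matrix.diagonal_mul]
        rfl
      rw [h3]
      exact Matrix.rank_mul_le_right _ _
    have h2 := Matrix.rank_vecMulVec_le (fun _ : X => (1 : ℝ)) (fun _ : Y => (1 : ℝ))
    have h3 := rank_add_le ((-1 : ℝ) • cm (fun x y => xor true (f x y)))
      (Matrix.vecMulVec (fun _ : X => (1 : ℝ)) (fun _ : Y => 1))
    rw [← e] at h3
    omega

section final

variable {ι : Type} [DecidableEq ι] [Fintype ι] {X Y : ι → Type} [∀ i, Fintype (X i)]
  [∀ i, Fintype (Y i)]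

/-- the number of monomials is at most the rank -/
theorem card_le_rank (f : ∀ i, X i → Y i → Bool) {g : Finset ι → Bool} {c : Finset ι → ℝ}
    (h : Rep g c) (hz : ∀ i, ∃ x0 x1 y0 y1, HasAnd (f i) x0 x1 y0 y1) :
    (univ.filter (fun S => c S ≠ 0)).card ≤ (cm (comp g (LR.inner f))).rank := by
  classical
  choose x0 x1 y0 y1 hp using hz
  have h1 := rank_eq (P := Finset ι) (f := g) (α := c) (by
    intro T
    rw [h T]
    refine sum_congr ?_ fun _ _ => rfl
    ext S
    simp)
  have e : Matrix.of (fun S T : Finset ι => if g (S ⊓ T) then (1 : ℝ) else 0) =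
      (cm (comp g (LR.inner f))).submatrix (fun S i => if i ∈ S then x1 i else x0 i)
        (fun T i => if i ∈ T then y1 i else y0 i) := by
    ext S T
    rw [Matrix.submatrix_apply]
    have e1 : S ⊓ T = univ.filter (fun i => LR.inner f i (fun i => if i ∈ S then x1 i else x0 i)
        (fun i => if i ∈ T then y1 i else y0 i) = true) := by
      ext i
      obtain ⟨h11, h00, h01, h10⟩ := hp i
      have e0 : LR.inner f i (fun i => if i ∈ S then x1 i else x0 i)
        (fun i => if i ∈ T then y1 i else y0 i) =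
          f i (if i ∈ S then x1 i else x0 i) (if i ∈ T then y1 i else y0 i) := rfl
      rw [Finset.inf_eq_inter, mem_inter, mem_filter, e0]
      by_cases hS : i ∈ S <;> by_cases hT : i ∈ T <;> simp [hS, hT, h11, h00, h01, h10]
    rw [Matrix.of_apply, e1]
    rfl
  rw [e] at h1
  rw [← h1]
  exact Matrix.rank_submatrix_le _ _ _

theorem final (f : ∀ i, X i → Y i → Bool)
    (hx : ∀ i, ¬ ∃ (u : X i → Bool) (v : Y i → Bool), ∀ x y, f i x y = xor (u x) (v y))
    (g : Finset ι → Bool) (K C : ℕ)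
    (hq : ∀ i, ∃ q : ℕ, Prot (f i) q ∧ (q : ℝ) ≤ K * (logRk (f i) + 1) ^ C) :
    ∃ q : ℕ, Prot (comp g (LR.inner f)) q ∧
      (q : ℝ) ≤ 288 * (18 + K * 3 ^ C) * (logRk (comp g (LR.inner f)) + 1) ^ (max C 4 + 7) := by
  classical
  choose s hs using fun i => exists_hasAnd (f i) (hx i)
  choose q hq1 hq2 using hq
  set f' : ∀ i, X i → Y i → Bool := fun i x y => xor (s i) (f i x y) with hf'
  set g' : Finset ι → Bool := fun T => g (univ.filter (fun i => xor (s i) (decide (i ∈ T)) = true))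
    with hg'
  have hcomp : comp g (LR.inner f) = comp g' (LR.inner f') := by
    funext x y
    simp only [comp, hg']
    congr 1
    ext i
    simp only [mem_filter, mem_univ, true_and]
    have e1 : LR.inner f i x y = f i (x i) (y i) := rfl
    have e2 : LR.inner f' i x y = xor (s i) (f i (x i) (y i)) := rfl
    rw [e1, e2]
    cases s i <;> cases f i (x i) (y i) <;> simp
  rw [hcomp]
  set I₂ : Finset ι := univ.filter (fun i => Rows3 (f' i) ∨ Rows3 (fun y x => f' i x y)) with hI₂
  have hr : ∀ i, ∃ r, Good (f' i) r ∧ 1 ≤ r ∧ (i ∈ I₂ → 2 ≤ r ∧ (cm (f' i)).rank ≤ r + 1) := by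
    intro i
    by_cases hi : i ∈ I₂
    · rw [hI₂, mem_filter] at hi
      obtain ⟨r, h1, h2, h3⟩ := exists_good (f' i) hi.2
      exact ⟨r, h1, by omega, fun _ => ⟨h2, h3⟩⟩
    · obtain ⟨x0, x1, y0, y1, hp⟩ := hs i
      exact ⟨_, Or.inl ⟨x0, rfl⟩, dRow_pos hp, fun h => absurd h hi⟩
  choose r hr1 hr2 hr3 using hr
  set c := coef g' with hc
  have hrep : Rep g' c := coef_rep g'
  set R := (cm (comp g' (LR.inner f'))).rank with hR
  set M : Finset (Finset ι) := univ.filter (fun S => c S ≠ 0) with hM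
  have hMR : M.card ≤ R := card_le_rank f' hrep hs
  have : ∀ i, Nonempty (X i) := fun i => by
    obtain ⟨x0, x1, y0, y1, hp⟩ := hs i
    exact ⟨x0⟩
  have : ∀ i, Nonempty (Y i) := fun i => by
    obtain ⟨x0, x1, y0, y1, hp⟩ := hs i
    exact ⟨y0⟩
  have hprod : ∀ S ∈ M, ∏ i ∈ S ∩ I₂, r i ≤ R := by
    intro S hS
    rw [hM, mem_filter] at hS
    have h1 := prod_le_rank f' r hr1 S c hS.2
    have h2 := h1.trans (prodM_rank_le f' hrep (fun i => by
      obtain ⟨x0, x1, y0, y1, hp⟩ := hs i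
      exact ⟨x0, y0, hp.2.1⟩) S)
    refine le_trans ?_ h2
    exact prod_le_prod_of_subset_of_one_le' inter_subset_left (fun i _ _ => hr2 i)
  set d : ℕ := Nat.log 2 R + 1 with hd
  have hRd : R < 2 ^ d := Nat.lt_pow_succ_log_self (by norm_num) R
  have hdR : (d : ℝ) ≤ Real.logb 2 (R : ℝ) + 1 := by
    rw [hd]
    push_cast
    rcases Nat.eq_zero_or_pos R with h0 | h0
    · rw [h0]
      norm_num
    · have h3 : (Nat.log 2 R : ℝ) ≤ Real.logb 2 (R : ℝ) := by
        rw [Real.le_logb_iff_rpow_le (by norm_num) (by exact_mod_cast h0), Real.rpow_natCast]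
        exact_mod_cast Nat.pow_log_le_self 2 (by omega)
      linarith
  have hlogd : ∀ S ∈ M, ∑ i ∈ S ∩ I₂, Real.logb 2 (r i : ℝ) ≤ d := by
    intro S hS
    have h1 := hprod S hS
    rw [← Real.logb_prod _ _ (fun i _ => by have := hr2 i; positivity)]
    have h2 : ((∏ i ∈ S ∩ I₂, r i : ℕ) : ℝ) ≤ (2 : ℝ) ^ d := by
      exact_mod_cast (h1.trans hRd.le)
    have hpos : (0 : ℝ) < ((∏ i ∈ S ∩ I₂, r i : ℕ) : ℝ) := by
      exact_mod_cast prod_pos fun i _ => (by have := hr2 i; omega : 0 < r i)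
    push_cast at h2 hpos
    calc Real.logb 2 (∏ i ∈ S ∩ I₂, (r i : ℝ)) ≤ Real.logb 2 ((2 : ℝ) ^ d) :=
          Real.logb_le_logb_of_le (by norm_num) hpos h2
      _ = d := by
          rw [← Real.rpow_natCast, Real.logb_rpow (by norm_num) (by norm_num)]
  have hw : ∀ i ∈ I₂, 1 ≤ Real.logb 2 (r i : ℝ) := fun i hi => by
    have h2 := (hr3 i hi).1
    rw [Real.le_logb_iff_rpow_le (by norm_num) (by positivity), Real.rpow_one]
    exact_mod_cast h2
  have hcard : ∀ S ∈ M, (S ∩ I₂).card ≤ d := by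
    intro S hS
    have h1 := hlogd S hS
    have h2 : ((S ∩ I₂).card : ℝ) ≤ ∑ i ∈ S ∩ I₂, Real.logb 2 (r i : ℝ) := by
      calc ((S ∩ I₂).card : ℝ) = ∑ i ∈ S ∩ I₂, (1 : ℝ) := by simp
        _ ≤ _ := sum_le_sum fun i hi => hw i (mem_inter.1 hi).2
    exact_mod_cast h2.trans h1
  have hqi : ∀ i ∈ I₂, (q i : ℝ) ≤ K * 3 ^ C * (Real.logb 2 (r i : ℝ)) ^ C := by
    intro i hi
    obtain ⟨h2, h3⟩ := hr3 i hi
    have h4 := rank_flip_le (f i) (s i)
    have h5 : logRk (f i) ≤ Real.logb 2 (r i : ℝ) + 1 := by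
      rw [logRk]
      rcases Nat.eq_zero_or_pos (cm (f i)).rank with h0 | h0
      · rw [h0]
        simp only [Nat.cast_zero, Real.logb_zero]
        linarith [hw i hi]
      · have h6 : ((cm (f i)).rank : ℝ) ≤ (r i : ℝ) * 2 := by
          have h7 : (cm (f i)).rank ≤ r i + 2 := by
            have h8 : (cm fun x y => xor (s i) (f i x y)) = cm (f' i) := rfl
            rw [h8] at h4
            omega
          exact_mod_cast (by omega : (cm (f i)).rank ≤ r i * 2)
        calc Real.logb 2 ((cm (f i)).rank : ℝ) ≤ Real.logb 2 ((r i : ℝ) * 2) :=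
              Real.logb_le_logb_of_le (by norm_num) (by exact_mod_cast h0) h6
          _ = Real.logb 2 (r i : ℝ) + 1 := by
              rw [Real.logb_mul (by positivity) (by norm_num), Real.logb_self_eq_one (by norm_num)]
    refine (hq2 i).trans ?_
    rw [mul_assoc, ← mul_pow]
    refine mul_le_mul_of_nonneg_left ?_ (by positivity)
    refine pow_le_pow_left₀ (by linarith [logRk_nonneg (f i)]) ?_ C
    linarith [hw i hi]
  have hQ : ∀ S ∈ M, ∑ i ∈ S ∩ I₂, q i ≤ K * 3 ^ C * d ^ (max C 1) := by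
    intro S hS
    have h1 := hlogd S hS
    have h0 : ∀ i ∈ S ∩ I₂, (0 : ℝ) ≤ Real.logb 2 (r i : ℝ) := fun i hi => by
      linarith [hw i (mem_inter.1 hi).2]
    have h2 : ((∑ i ∈ S ∩ I₂, q i : ℕ) : ℝ) ≤ K * 3 ^ C * (d : ℝ) ^ (max C 1) := by
      push_cast
      rcases Nat.eq_zero_or_pos C with hC | hC
      · have h3 := hcard S hS
        calc ∑ i ∈ S ∩ I₂, (q i : ℝ) ≤ ∑ i ∈ S ∩ I₂, (K * 3 ^ C : ℝ) := by
              refine sum_le_sum fun i hi => ?_
              have h4 := hqi i (mem_inter.1 hi).2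
              rw [hC, pow_zero, pow_zero, mul_one, mul_one] at h4
              rw [hC, pow_zero, mul_one]
              exact h4
          _ = (S ∩ I₂).card * (K * 3 ^ C) := by rw [sum_const, nsmul_eq_mul]
          _ ≤ d * (K * 3 ^ C) := mul_le_mul_of_nonneg_right (by exact_mod_cast h3) (by positivity)
          _ = _ := by rw [hC]; simp; ring
      · rw [max_eq_left hC]
        calc ∑ i ∈ S ∩ I₂, (q i : ℝ) ≤ ∑ i ∈ S ∩ I₂, K * 3 ^ C * (Real.logb 2 (r i : ℝ)) ^ C :=
              sum_le_sum fun i hi => hqi i (mem_inter.1 hi).2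
          _ = K * 3 ^ C * ∑ i ∈ S ∩ I₂, (Real.logb 2 (r i : ℝ)) ^ C := by rw [mul_sum]
          _ ≤ K * 3 ^ C * (∑ i ∈ S ∩ I₂, Real.logb 2 (r i : ℝ)) ^ C :=
              mul_le_mul_of_nonneg_left (sum_pow_le _ _ h0 hC) (by positivity)
          _ ≤ K * 3 ^ C * (d : ℝ) ^ C := mul_le_mul_of_nonneg_left
                (pow_le_pow_left₀ (sum_nonneg h0) h1 C) (by positivity)
    exact_mod_cast h2
  have hφ : ∀ i, Prot (LR.inner f' i) (q i) := fun i =>
    (Prot.flip (hq1 i) (s i)).lift (fun x : (∀ i, X i) => x i) (fun y : (∀ i, Y i) => y i)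
  have hI : ∀ i, i ∉ I₂ → ∃ (u : (∀ i, X i) → Bool) (v : (∀ i, Y i) → Bool),
      ∀ x y, LR.inner f' i x y = (u x && v y) := by
    intro i hi
    rw [hI₂, mem_filter] at hi
    simp only [mem_univ, true_and, not_or] at hi
    obtain ⟨x0, x1, y0, y1, hp⟩ := hs i
    exact ⟨fun x => f' i (x i) y1, fun y => f' i x1 (y i), fun x y =>
      and_type hp hi.1 hi.2 (x i) (y i)⟩
  have hmain := mainM hφ I₂ hI hrep (M := M) (fun S => by rw [hM, mem_filter]; simp)
    (d := d) (by omega) (lt_of_le_of_lt hMR hRd) hQ hcard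
  refine ⟨_, hmain, ?_⟩
  have hd1 : (1 : ℝ) ≤ d := by
    have : 1 ≤ d := by omega
    exact_mod_cast this
  have hbound : (((16 * d ^ 4 + (K * 3 ^ C * d ^ max C 1 + 2)) * (288 * d ^ 7) : ℕ) : ℝ) ≤
      288 * (18 + K * 3 ^ C) * (d : ℝ) ^ (max C 4 + 7) := by
    push_cast
    have h1 : (d : ℝ) ^ 4 ≤ (d : ℝ) ^ (max C 4) := pow_le_pow_right₀ hd1 (le_max_right _ _)
    have h2 : (d : ℝ) ^ (max C 1) ≤ (d : ℝ) ^ (max C 4) :=
      pow_le_pow_right₀ hd1 (max_le_max le_rfl (by norm_num))
    have h3 : (1 : ℝ) ≤ (d : ℝ) ^ (max C 4) := one_le_pow₀ hd1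
    have h4 : (0 : ℝ) ≤ K * 3 ^ C := by positivity
    have h5 : 16 * (d : ℝ) ^ 4 + (K * 3 ^ C * (d : ℝ) ^ max C 1 + 2) ≤
        (18 + K * 3 ^ C) * (d : ℝ) ^ (max C 4) := by
      have := mul_le_mul_of_nonneg_left h2 h4
      linarith
    calc (16 * (d : ℝ) ^ 4 + (K * 3 ^ C * (d : ℝ) ^ max C 1 + 2)) * (288 * (d : ℝ) ^ 7)
        ≤ ((18 + K * 3 ^ C) * (d : ℝ) ^ (max C 4)) * (288 * (d : ℝ) ^ 7) :=
          mul_le_mul_of_nonneg_right h5 (by positivity)
      _ = _ := by rw [pow_add]; ring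
  refine hbound.trans ?_
  refine mul_le_mul_of_nonneg_left (pow_le_pow_left₀ (by linarith) ?_ _) (by positivity)
  exact hdR

end final

end Pool.Agent.N609.AndRank
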