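import Pool.Agent.N609.AndRank.Gad

/-!
# From protocols to colourings
-/

set_option autoImplicit false
set_option linter.unusedSectionVars false
set_option linter.unusedVariables false

namespace Pool.Agent.N609.AndRank

open Finset Pool.Agent.TH744.LR

theorem pstep_rect {X Y : Type} (owner : List Bool → Bool) (a : List Bool → X → Bool)
    (b : List Bool → Y → Bool) (x x' : X) (y y' : Y) (n : ℕ)
    (h : Nat.iterate (pstep owner a b x y) n [] = Nat.iterate (pstep owner a b x' y') n []) :
    Nat.iterate (pstep owner a b x y') n [] = Nat.iterate (pstep owner a b x y) n [] := by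
  induction n with
  | zero => rfl
  | succ n ih =>
    rw [Function.iterate_succ_apply', Function.iterate_succ_apply'] at h
    have h1 := pstep_len owner a b x y n
    have h2 := pstep_len owner a b x' y' n
    simp only [pstep] at h
    obtain ⟨h3, h4⟩ := List.append_inj h (h1.trans h2.symm)
    have h5 := ih h3
    rw [Function.iterate_succ_apply', Function.iterate_succ_apply', h5]
    have h3' : Nat.iterate (pstep owner a b x y) n [] =
      Nat.iterate (pstep owner a b x' y') n [] := h3
    have h4' : (if owner (Nat.iterate (pstep owner a b x y) n []) then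
          a (Nat.iterate (pstep owner a b x y) n []) x else
          b (Nat.iterate (pstep owner a b x y) n []) y) =
        (if owner (Nat.iterate (pstep owner a b x' y') n []) then
          a (Nat.iterate (pstep owner a b x' y') n []) x' else
          b (Nat.iterate (pstep owner a b x' y') n []) y') := by
      simpa using h4
    rw [← h3'] at h4'
    set T := Nat.iterate (pstep owner a b x y) n [] with hT
    simp only [pstep]
    cases hO : owner T
    · rw [hO] at h4'
      simp only [Bool.false_eq_true, if_false] at h4' ⊢
      rw [h4']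
    · simp

/-- a graph which is covered by `t` pieces on each of which the adjacency has a protocol with `c`
bits has a colouring with `t 2 ^ c` colours -/
theorem colorable_of_prot {V : Type} (G : SimpleGraph V) (t c : ℕ) (A : Fin t → Type)
    (φ : ∀ i, A i → V) (hcov : ∀ v, ∃ i x, φ i x = v) (F : ∀ i, A i → A i → Bool)
    (hF : ∀ i x y, G.Adj (φ i x) (φ i y) ↔ F i x y = true) (hP : ∀ i, Prot (F i) c) :
    G.Colorable (t * 2 ^ c) := by
  classical
  choose owner a b out hout using hP
  choose i x hx using hcov
  have col : G.Coloring (Fin t × {l : List Bool // l.length = c}) :=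
    SimpleGraph.Coloring.mk (fun v => (i v, ⟨Nat.iterate (pstep (owner (i v)) (a (i v)) (b (i v))
      (x v) (x v)) c [], pstep_len _ _ _ _ _ _⟩)) (by
      intro v w hvw heq
      rw [Prod.mk.injEq, Subtype.mk.injEq] at heq
      obtain ⟨h1, h2⟩ := heq
      have key : ∀ (j : Fin t) (p q : A j), Nat.iterate (pstep (owner j) (a j) (b j) p p) c [] =
          Nat.iterate (pstep (owner j) (a j) (b j) q q) c [] → ¬ G.Adj (φ j p) (φ j q) := by
        intro j p q hpq hadj
        have h3 := pstep_rect (owner j) (a j) (b j) p q p q c hpq
        have h4 := hout j p q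
        have h5 := hout j p p
        rw [h3, h5] at h4
        rw [hF, ← h4, ← hF] at hadj
        exact G.loopless.irrefl _ hadj
      have h6 : ∀ (j j' : Fin t) (p : A j) (q : A j'), j = j' →
          Nat.iterate (pstep (owner j) (a j) (b j) p p) c [] =
          Nat.iterate (pstep (owner j') (a j') (b j') q q) c [] → ¬ G.Adj (φ j p) (φ j' q) := by
        intro j j' p q hj
        subst hj
        exact key j p q
      have h7 := h6 (i v) (i w) (x v) (x w) h1 h2
      rw [hx, hx] at h7
      exact h7 hvw)
  have e : {l : List Bool // l.length = c} ≃ (Fin c → Bool) := Equiv.vectorEquivFin Bool c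
  have : Fintype {l : List Bool // l.length = c} := Fintype.ofEquiv _ e.symm
  have h := col.colorable
  have hc : Fintype.card (Fin t × {l : List Bool // l.length = c}) = t * 2 ^ c := by
    rw [Fintype.card_prod, Fintype.card_fin, Fintype.card_congr e]
    simp
  rwa [hc] at h

theorem logb_chi_le {V : Type} (G : SimpleGraph V) (t c : ℕ) (h : G.Colorable (t * 2 ^ c)) :
    Real.logb 2 (G.chromaticNumber.toNat : ℝ) ≤ Real.logb 2 t + c := by
  have h1 : G.chromaticNumber.toNat ≤ t * 2 ^ c := by
    have := ENat.toNat_le_toNat h.chromaticNumber_le (ENat.natCast_ne_top _)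
    rwa [ENat.toNat_natCast] at this
  rcases Nat.eq_zero_or_pos G.chromaticNumber.toNat with h0 | h0
  · rw [h0]
    rcases Nat.eq_zero_or_pos t with ht | ht
    · rw [ht]
      simp
    · have : 0 ≤ Real.logb 2 (t : ℝ) := Real.logb_nonneg (by norm_num) (by exact_mod_cast ht)
      simp only [Nat.cast_zero, Real.logb_zero]
      positivity
  · have ht : 0 < t := by
      rcases Nat.eq_zero_or_pos t with ht | ht
      · rw [ht, zero_mul] at h1
        omega
      · exact ht
    have h2 : Real.logb 2 (G.chromaticNumber.toNat : ℝ) ≤ Real.logb 2 ((t * 2 ^ c : ℕ) : ℝ) :=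
      Real.logb_le_logb_of_le (by norm_num) (by exact_mod_cast h0) (by exact_mod_cast h1)
    refine h2.trans (le_of_eq ?_)
    push_cast
    rw [Real.logb_mul (by positivity) (by positivity), Real.logb_pow,
      Real.logb_self_eq_one (by norm_num), mul_one]

/-- the communication matrix of a piece is a submatrix of the adjacency matrix -/
theorem rank_piece_le {V A : Type} [Fintype V] [Fintype A] (G : SimpleGraph V) [DecidableRel G.Adj]
    (φ : A → V) (F : A → A → Bool) (hF : ∀ x y, G.Adj (φ x) (φ y) ↔ F x y = true) :
    (Matrix.of (fun x y : A => if F x y then (1 : ℝ) else 0)).rank ≤ (G.adjMatrix ℝ).rank := by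
  classical
  have e : Matrix.of (fun x y : A => if F x y then (1 : ℝ) else 0) =
      (G.adjMatrix ℝ).submatrix φ φ := by
    ext x y
    rw [Matrix.submatrix_apply, SimpleGraph.adjMatrix_apply, Matrix.of_apply]
    by_cases h : G.Adj (φ x) (φ y)
    · rw [if_pos h, if_pos ((hF x y).1 h)]
    · rw [if_neg h, if_neg (fun h' => h ((hF x y).2 h'))]
  rw [e]
  exact Matrix.rank_submatrix_le _ _ _

end Pool.Agent.N609.AndRank
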