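import Pool.Agent.N609.AndRank.Exp

/-!
# Definable sets contained in many monomials

Let `M` be the set of monomials of the Boolean function `g`. The family `Fam M L j` consists of the sets
obtained from the members of `M` by `j` times removing a union of at most `L` members of `M` and the
points covered at least twice by `L` members of `M`. For every distribution on minimal sensitive sets
there is a member of this small family which is contained in a random set with noticeable probability.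
-/

set_option autoImplicit false
set_option linter.unusedSectionVars false
set_option linter.unusedVariables false

namespace Pool.Agent.N609.AndRank

open Finset Pool.Agent.TH744.LR

variable {ι : Type} [Fintype ι] [DecidableEq ι]

/-- unions of `L` members of `M`, together with the points covered twice by `L` members of `M` -/
def Exc (M : Finset (Finset ι)) (L : ℕ) : Finset (Finset ι) :=
  ((Fintype.piFinset fun _ : Fin L => insert ∅ M) ×ˢ
    (Fintype.piFinset fun _ : Fin L => insert ∅ M)).image (fun p => UU p.1 ∪ DD p.2)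

def Fam (M : Finset (Finset ι)) (L : ℕ) : ℕ → Finset (Finset ι)
  | 0 => M
  | j + 1 => ((Fam M L j) ×ˢ (Exc M L)).image (fun p => p.1 \ p.2)

theorem card_Exc (M : Finset (Finset ι)) (L : ℕ) : (Exc M L).card ≤ (M.card + 1) ^ (2 * L) := by
  refine card_image_le.trans ?_
  rw [card_product, Fintype.card_piFinset, prod_const, card_univ, Fintype.card_fin, ← pow_add,
    two_mul]
  exact Nat.pow_le_pow_left (card_insert_le _ _) _

theorem card_Fam (M : Finset (Finset ι)) (L j : ℕ) :
    (Fam M L j).card ≤ (M.card + 1) ^ (2 * L * j + 1) := by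
  induction j with
  | zero =>
    simp [Fam]
  | succ j ih =>
    refine card_image_le.trans ?_
    rw [card_product]
    calc (Fam M L j).card * (Exc M L).card
        ≤ (M.card + 1) ^ (2 * L * j + 1) * (M.card + 1) ^ (2 * L) :=
          Nat.mul_le_mul ih (card_Exc M L)
      _ = (M.card + 1) ^ (2 * L * (j + 1) + 1) := by
          rw [← pow_add]
          congr 1
          ring

theorem mem_Exc_U {M : Finset (Finset ι)} {L s : ℕ} (hs : s < L) {R : Finset ι}
    (hR : R ∈ insert ∅ M) {S : Fin s → Finset ι} (hS : ∀ l, S l ∈ M) : R ∪ UU S ∈ Exc M L := by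
  rw [Exc, mem_image]
  refine ⟨(fun l : Fin L => if h0 : l.val = 0 then R else
    if h : l.val - 1 < s then S ⟨l.val - 1, h⟩ else ∅, fun _ => ∅), ?_, ?_⟩
  · rw [mem_product]
    constructor
    · rw [Fintype.mem_piFinset]
      intro l
      dsimp only
      split_ifs
      · exact hR
      · exact mem_insert_of_mem (hS _)
      · exact mem_insert_self _ _
    · rw [Fintype.mem_piFinset]
      intro l
      exact mem_insert_self _ _
  · ext x
    simp only [mem_union, mem_UU, mem_DD]
    constructor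
    · rintro (⟨l, hl⟩ | ⟨l, l', _, hl, _⟩)
      · split_ifs at hl with h0 h
        · exact Or.inl hl
        · exact Or.inr ⟨_, hl⟩
        · simp at hl
      · simp at hl
    · rintro (h | ⟨l, hl⟩)
      · refine Or.inl ⟨⟨0, by omega⟩, ?_⟩
        simpa using h
      · refine Or.inl ⟨⟨l.val + 1, by omega⟩, ?_⟩
        simpa using hl

theorem mem_Exc_D {M : Finset (Finset ι)} {L s : ℕ} (hs : s < L) {R : Finset ι}
    (hR : R ∈ insert ∅ M) {S : Fin s → Finset ι} (hS : ∀ l, S l ∈ M) : R ∪ DD S ∈ Exc M L := by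
  rw [Exc, mem_image]
  refine ⟨(fun l : Fin L => if l.val = 0 then R else ∅,
    fun l => if h : l.val < s then S ⟨l.val, h⟩ else ∅), ?_, ?_⟩
  · rw [mem_product]
    constructor
    · rw [Fintype.mem_piFinset]
      intro l
      dsimp only
      split_ifs
      · exact hR
      · exact mem_insert_self _ _
    · rw [Fintype.mem_piFinset]
      intro l
      dsimp only
      split_ifs
      · exact mem_insert_of_mem (hS _)
      · exact mem_insert_self _ _
  · ext x
    simp only [mem_union, mem_UU, mem_DD]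
    constructor
    · rintro (⟨l, hl⟩ | ⟨l, l', hne, hl, hl'⟩)
      · split_ifs at hl with h0
        · exact Or.inl hl
        · simp at hl
      · right
        split_ifs at hl with h1
        · split_ifs at hl' with h2
          · refine ⟨_, _, ?_, hl, hl'⟩
            intro h
            rw [Fin.mk.injEq] at h
            exact hne (Fin.ext h)
          · simp at hl'
        · simp at hl
    · rintro (h | ⟨l, l', hne, hl, hl'⟩)
      · refine Or.inl ⟨⟨0, by omega⟩, ?_⟩
        simpa using h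
      · refine Or.inr ⟨⟨l.val, by omega⟩, ⟨l'.val, by omega⟩, ?_, ?_, ?_⟩
        · intro h
          rw [Fin.mk.injEq] at h
          exact hne (Fin.ext h)
        · simpa using hl
        · simpa using hl'

/-- there is a distribution on the minimal sensitive sets of some point for which the probability of
containing a set of the family is at most `η` -/
def Bad (g : Finset ι → Bool) (M : Finset (Finset ι)) (L j : ℕ) (η : ℝ) : Prop :=
  ∃ (z : Finset ι) (π : Finset ι → ℝ), (∀ v, 0 ≤ π v) ∧ ∑ v, π v = 1 ∧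
    (∀ v, π v ≠ 0 → MinS g z v) ∧ ∀ X ∈ Fam M L j, (X \ z).Nonempty → pr π (X \ z) ≤ η

theorem Bad.mono {g : Finset ι → Bool} {M : Finset (Finset ι)} {L j : ℕ} {η η' : ℝ}
    (h : Bad g M L j η) (hη : η ≤ η') : Bad g M L j η' := by
  obtain ⟨z, π, h1, h2, h3, h4⟩ := h
  exact ⟨z, π, h1, h2, h3, fun X hX hne => (h4 X hX hne).trans hη⟩

theorem step_core {g : Finset ι → Bool} {c : Finset ι → ℝ} (h : Rep g c)
    {M : Finset (Finset ι)} (hM : ∀ S, c S ≠ 0 → S ∈ M) {L j : ℕ} {η : ℝ} (hη : 0 ≤ η)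
    {z : Finset ι} {π : Finset ι → ℝ} (hπ : ∀ v, 0 ≤ π v) (h1 : ∑ v, π v = 1)
    (hmin : ∀ v, π v ≠ 0 → MinS g z v)
    (htest : ∀ X ∈ Fam M L (j + 1), (X \ z).Nonempty → pr π (X \ z) ≤ η)
    {R : Finset ι} (hR : R ∈ insert ∅ M) {s : ℕ} (hs : s ≤ L) {p : ℝ} (hp : 0 < p)
    (hsens : p ≤ Ex π s (fun W => if g (z ∪ R ∪ DD W) ≠ g (z ∪ R) then 1 else 0)) :
    Bad g M L j ((s : ℝ) ^ 2 * η ^ 2 / p) := by
  classical
  have hch : ∀ W : Fin s → Finset ι, ∃ v, g (z ∪ R ∪ DD W) ≠ g (z ∪ R) →
      v ⊆ DD W ∧ MinS g (z ∪ R) v := by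
    intro W
    by_cases hW : g (z ∪ R ∪ DD W) ≠ g (z ∪ R)
    · obtain ⟨v, hv1, hv2⟩ := exists_min g (z ∪ R) (DD W) hW
      exact ⟨v, fun _ => ⟨hv1, hv2⟩⟩
    · exact ⟨∅, fun h => absurd h hW⟩
  choose τ hτ using hch
  set A : (Fin s → Finset ι) → Prop := fun W => g (z ∪ R ∪ DD W) ≠ g (z ∪ R) with hA
  set q : ℝ := Ex π s (fun W => if A W then 1 else 0) with hq
  have hq0 : 0 < q := lt_of_lt_of_le hp hsens
  set π' : Finset ι → ℝ := fun v => Ex π s (fun W => if A W ∧ τ W = v then 1 else 0) / q with hπ'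
  -- probabilities for the new distribution
  have hsum : ∀ w : Finset ι → ℝ, ∑ v, π' v * w v =
      Ex π s (fun W => if A W then w (τ W) else 0) / q := by
    intro w
    have e1 : ∀ v, π' v * w v = (w v * Ex π s (fun W => if A W ∧ τ W = v then 1 else 0)) / q := by
      intro v
      rw [hπ']
      ring
    rw [sum_congr rfl fun v _ => e1 v, ← sum_div, Ex_comm]
    congr 2
    funext W
    by_cases hW : A W
    · simp only [hW, true_and, if_true]
      rw [sum_eq_single (τ W)]
      · simp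
      · intro b _ hb
        rw [if_neg (Ne.symm hb), mul_zero]
      · intro hh
        exact absurd (mem_univ _) hh
    · simp [hW]
  refine ⟨z ∪ R, π', ?_, ?_, ?_, ?_⟩
  · intro v
    rw [hπ']
    refine div_nonneg (Ex_nonneg hπ fun W => ?_) hq0.le
    split_ifs <;> norm_num
  · have := hsum (fun _ => 1)
    simp only [mul_one] at this
    rw [this, ← hq]
    exact div_self hq0.ne'
  · intro v hv
    have h2 : Ex π s (fun W => if A W ∧ τ W = v then 1 else 0) ≠ 0 := by
      intro h0
      rw [hπ'] at hv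
      simp only [h0, zero_div, ne_eq, not_true] at hv
    obtain ⟨W, _, hW⟩ := exists_ne_zero_of_sum_ne_zero h2
    have h3 : A W ∧ τ W = v := by
      by_contra hcon
      have hW' : (∏ l, π (W l)) * (if A W ∧ τ W = v then (1 : ℝ) else 0) ≠ 0 := hW
      rw [if_neg hcon, mul_zero] at hW'
      exact hW' rfl
    rw [← h3.2]
    exact (hτ W h3.1).2
  · intro X hX hne
    set T := X \ (z ∪ R) with hT
    have hb : Ex π s (fun W => if T ⊆ DD W then 1 else 0) ≤ (s : ℝ) ^ 2 * η ^ 2 := by
      have hsam : ∀ s', ∀ W : Fin s' → Finset ι, (∀ l, π (W l) ≠ 0) →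
          ∃ S : Fin s' → Finset ι, (∀ l, S l ∈ M) ∧ ∀ l, S l \ z = W l := by
        intro s' W hW
        have : ∀ l, ∃ S, S ∈ M ∧ S \ z = W l := by
          intro l
          obtain ⟨S, hS, hSz⟩ := (hmin _ (hW l)).mon h
          exact ⟨S, hM S hS, hSz⟩
        choose S hS using this
        exact ⟨S, fun l => (hS l).1, fun l => (hS l).2⟩
      refine prob_D hπ h1 hne s ?_ ?_ hη s le_rfl
      · intro s' hs' W hW hne'
        obtain ⟨S, hS, hSz⟩ := hsam s' W hW
        have e : T \ UU W = (X \ (R ∪ UU S)) \ z := by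
          ext x
          simp only [hT, mem_sdiff, mem_union, mem_UU, ← hSz]
          constructor
          · rintro ⟨⟨h2, h3⟩, h4⟩
            refine ⟨⟨h2, ?_⟩, fun h => h3 (Or.inl h)⟩
            rintro (h5 | ⟨l, hl⟩)
            · exact h3 (Or.inr h5)
            · exact h4 ⟨l, hl, fun h => h3 (Or.inl h)⟩
          · rintro ⟨⟨h2, h3⟩, h4⟩
            refine ⟨⟨h2, ?_⟩, ?_⟩
            · rintro (h5 | h5)
              · exact h4 h5
              · exact h3 (Or.inl h5)
            · rintro ⟨l, hl, _⟩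
              exact h3 (Or.inr ⟨l, hl⟩)
        rw [e] at hne' ⊢
        refine htest _ ?_ hne'
        rw [Fam, mem_image]
        exact ⟨(X, R ∪ UU S), mem_product.2 ⟨hX, mem_Exc_U (by omega) hR hS⟩, rfl⟩
      · intro s' hs' W hW hne'
        obtain ⟨S, hS, hSz⟩ := hsam s' W hW
        have e : T \ DD W = (X \ (R ∪ DD S)) \ z := by
          ext x
          simp only [hT, mem_sdiff, mem_union, mem_DD, ← hSz]
          constructor
          · rintro ⟨⟨h2, h3⟩, h4⟩
            refine ⟨⟨h2, ?_⟩, fun h => h3 (Or.inl h)⟩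
            rintro (h5 | ⟨l, l', hll, hl, hl'⟩)
            · exact h3 (Or.inr h5)
            · exact h4 ⟨l, l', hll, ⟨hl, fun h => h3 (Or.inl h)⟩, ⟨hl', fun h => h3 (Or.inl h)⟩⟩
          · rintro ⟨⟨h2, h3⟩, h4⟩
            refine ⟨⟨h2, ?_⟩, ?_⟩
            · rintro (h5 | h5)
              · exact h4 h5
              · exact h3 (Or.inl h5)
            · rintro ⟨l, l', hll, ⟨hl, _⟩, ⟨hl', _⟩⟩
              exact h3 (Or.inr ⟨l, l', hll, hl, hl'⟩)
        rw [e] at hne' ⊢
        refine htest _ ?_ hne'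
        rw [Fam, mem_image]
        exact ⟨(X, R ∪ DD S), mem_product.2 ⟨hX, mem_Exc_D (by omega) hR hS⟩, rfl⟩
    have h4 : pr π' T ≤ Ex π s (fun W => if T ⊆ DD W then 1 else 0) / q := by
      unfold pr
      rw [hsum]
      refine div_le_div_of_nonneg_right (Ex_mono hπ fun W _ => ?_) hq0.le
      by_cases hW : A W
      · rw [if_pos hW]
        by_cases hTW : T ⊆ τ W
        · rw [if_pos hTW, if_pos (hTW.trans (hτ W hW).1)]
        · rw [if_neg hTW]
          split_ifs <;> norm_num
      · rw [if_neg hW]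
        split_ifs <;> norm_num
    refine h4.trans ?_
    have h5 : (0 : ℝ) ≤ (s : ℝ) ^ 2 * η ^ 2 := by positivity
    calc Ex π s (fun W => if T ⊆ DD W then 1 else 0) / q
        ≤ ((s : ℝ) ^ 2 * η ^ 2) / q := div_le_div_of_nonneg_right hb hq0.le
      _ ≤ (s : ℝ) ^ 2 * η ^ 2 / p := div_le_div_of_nonneg_left h5 hp hsens

theorem bad_step {g : Finset ι → Bool} {c : Finset ι → ℝ} (h : Rep g c)
    {M : Finset (Finset ι)} (hM : ∀ S, c S ≠ 0 → S ∈ M) {m j : ℕ}
    (hbl : ∀ (z : Finset ι) (B : Fin (m + 1) → Finset ι),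
      (∀ i j, i ≠ j → Disjoint (B i) (B j)) → (∀ j, g (z ∪ B j) ≠ g z) → False)
    {η : ℝ} (hη : 0 ≤ η) (hbad : Bad g M (m + 1) (j + 1) η) :
    Bad g M (m + 1) j (((m : ℝ) + 2) * ((m : ℝ) + 1) ^ 2 * η ^ 2) := by
  classical
  obtain ⟨z, π, hπ, h1, hmin, htest⟩ := hbad
  set A0 : (Fin (m + 1) → Finset ι) → Prop := fun W => g (z ∪ ∅ ∪ DD W) ≠ g (z ∪ ∅) with hA0
  set A : Fin (m + 1) → (Fin (m + 1) → Finset ι) → Prop := fun i W =>
    g (z ∪ W i ∪ DD (fun l => W (i.succAbove l))) ≠ g (z ∪ W i) with hA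
  have hm2 : (0 : ℝ) < (m : ℝ) + 2 := by positivity
  have hcov : ∀ W : Fin (m + 1) → Finset ι, (∀ l, π (W l) ≠ 0) → A0 W ∨ ∃ i, A i W := by
    intro W hW
    by_contra hcon
    push Not at hcon
    obtain ⟨hc0, hc⟩ := hcon
    simp only [hA0, union_empty, not_not] at hc0
    simp only [hA, not_not] at hc
    refine hbl (z ∪ DD W) (fun i => W i \ DD W) ?_ ?_
    · intro i j hij
      rw [disjoint_left]
      intro x hx hx'
      rw [mem_sdiff] at hx hx'
      exact hx.2 (mem_DD.2 ⟨i, j, hij, hx.1, hx'.1⟩)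
    · intro i
      have e : z ∪ DD W ∪ W i \ DD W = z ∪ W i ∪ DD (fun l => W (i.succAbove l)) := by
        have e1 : DD W = DD (fun l => W (i.succAbove l)) ∪
            (W i ∩ UU (fun l => W (i.succAbove l))) := by
          have := DD_insert i (W i) (fun l => W (i.succAbove l))
          rw [← this]
          congr 1
          exact (Fin.insertNth_self_removeNth i W).symm
        ext x
        rw [e1]
        simp only [mem_union, mem_sdiff, mem_inter]
        tauto
      rw [e, hc i, hc0]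
      exact (hmin _ (hW i)).1
  have hone : (1 : ℝ) ≤ Ex π (m + 1) (fun W => if A0 W then 1 else 0) +
      ∑ i, Ex π (m + 1) (fun W => if A i W then 1 else 0) := by
    have e1 : ∑ i, Ex π (m + 1) (fun W => if A i W then (1 : ℝ) else 0) =
        Ex π (m + 1) (fun W => ∑ i, if A i W then (1 : ℝ) else 0) := by
      have := Ex_comm π (m + 1) (univ : Finset (Fin (m + 1))) (fun _ => (1 : ℝ))
        (fun i W => if A i W then (1 : ℝ) else 0)
      simpa using this
    rw [e1, ← Ex_add]
    refine le_trans (le_of_eq (Ex_const h1 (m + 1) 1).symm) ?_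
    refine Ex_mono hπ fun W hW => ?_
    have hnn : ∀ i ∈ (univ : Finset (Fin (m + 1))), (0 : ℝ) ≤ if A i W then (1 : ℝ) else 0 :=
      fun i _ => by split_ifs <;> norm_num
    rcases hcov W hW with h2 | ⟨i, h2⟩
    · rw [if_pos h2]
      have := sum_nonneg hnn
      linarith
    · have h3 := single_le_sum hnn (mem_univ i)
      rw [if_pos h2] at h3
      have h4 : (0 : ℝ) ≤ if A0 W then (1 : ℝ) else 0 := by split_ifs <;> norm_num
      linarith
  have hfin : ∀ s : ℕ, s ≤ m + 1 → (s : ℝ) ^ 2 * η ^ 2 / (1 / ((m : ℝ) + 2)) ≤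
      ((m : ℝ) + 2) * ((m : ℝ) + 1) ^ 2 * η ^ 2 := by
    intro s hs
    have h2 : (s : ℝ) ≤ (m : ℝ) + 1 := by exact_mod_cast hs
    have h3 : (s : ℝ) ^ 2 ≤ ((m : ℝ) + 1) ^ 2 := pow_le_pow_left₀ (Nat.cast_nonneg s) h2 2
    rw [div_div_eq_mul_div, div_one]
    calc (s : ℝ) ^ 2 * η ^ 2 * ((m : ℝ) + 2) ≤ ((m : ℝ) + 1) ^ 2 * η ^ 2 * ((m : ℝ) + 2) := by
          refine mul_le_mul_of_nonneg_right ?_ hm2.le
          exact mul_le_mul_of_nonneg_right h3 (sq_nonneg _)
      _ = _ := by ring
  have hp : (0 : ℝ) < 1 / ((m : ℝ) + 2) := by positivity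
  by_cases hc0 : 1 / ((m : ℝ) + 2) ≤ Ex π (m + 1) (fun W => if A0 W then 1 else 0)
  · have h2 := step_core h hM hη hπ h1 hmin htest (R := ∅) (mem_insert_self _ _) (s := m + 1)
      le_rfl hp hc0
    exact h2.mono (hfin (m + 1) le_rfl)
  · push Not at hc0
    have hex : ∃ i, 1 / ((m : ℝ) + 2) ≤ Ex π (m + 1) (fun W => if A i W then 1 else 0) := by
      by_contra hcon
      push Not at hcon
      have h2 : ∑ i, Ex π (m + 1) (fun W => if A i W then (1 : ℝ) else 0) ≤
          ∑ i : Fin (m + 1), 1 / ((m : ℝ) + 2) := sum_le_sum fun i _ => (hcon i).le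
      rw [sum_const, card_univ, Fintype.card_fin, nsmul_eq_mul] at h2
      have h3 : ((m + 1 : ℕ) : ℝ) * (1 / ((m : ℝ) + 2)) + 1 / ((m : ℝ) + 2) = 1 := by
        push_cast
        field_simp
        ring
      linarith
    obtain ⟨i, hi⟩ := hex
    rw [Ex_succ π m i] at hi
    have hv : ∃ v, π v ≠ 0 ∧ 1 / ((m : ℝ) + 2) ≤
        Ex π m (fun W => if g (z ∪ v ∪ DD W) ≠ g (z ∪ v) then 1 else 0) := by
      by_contra hcon
      push Not at hcon
      have e1 : ∀ v, Ex π m (fun W => if A i (i.insertNth (α := fun _ => Finset ι) v W) then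
          (1 : ℝ) else 0) = Ex π m (fun W => if g (z ∪ v ∪ DD W) ≠ g (z ∪ v) then 1 else 0) := by
        intro v
        congr 1
        funext W
        simp only [hA, Fin.insertNth_apply_same, Fin.insertNth_apply_succAbove]
      simp only [e1] at hi
      have hlt : ∑ v, π v * Ex π m (fun W => if g (z ∪ v ∪ DD W) ≠ g (z ∪ v) then (1 : ℝ) else 0) <
          ∑ v, π v * (1 / ((m : ℝ) + 2)) := by
        obtain ⟨v0, hv0⟩ : ∃ v, π v ≠ 0 := by
          by_contra hz
          push Not at hz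
          simp [hz] at h1
        refine sum_lt_sum (fun v _ => ?_) ⟨v0, mem_univ _, ?_⟩
        · by_cases hv : π v = 0
          · rw [hv, zero_mul, zero_mul]
          · exact mul_le_mul_of_nonneg_left (hcon v hv).le (hπ v)
        · exact mul_lt_mul_of_pos_left (hcon v0 hv0) (lt_of_le_of_ne (hπ v0) (Ne.symm hv0))
      rw [← sum_mul, h1, one_mul] at hlt
      linarith
    obtain ⟨v, hv0, hv⟩ := hv
    obtain ⟨S, hS, hSz⟩ := (hmin v hv0).mon h
    have e2 : z ∪ v = z ∪ S := by
      rw [← hSz]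
      ext x
      simp only [mem_union, mem_sdiff]
      tauto
    rw [e2] at hv
    have h2 := step_core h hM hη hπ h1 hmin htest (R := S) (mem_insert_of_mem (hM S hS)) (s := m)
      (by omega) hp hv
    exact h2.mono (hfin m (by omega))

theorem bad_zero {g : Finset ι → Bool} {c : Finset ι → ℝ} (h : Rep g c)
    {M : Finset (Finset ι)} (hM : ∀ S, c S ≠ 0 → S ∈ M) {L : ℕ} {η : ℝ} (hη : 0 ≤ η)
    (hbad : Bad g M L 0 η) : 1 ≤ M.card * η := by
  classical
  obtain ⟨z, π, hπ, h1, hmin, htest⟩ := hbad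
  have h2 : ∑ v, π v ≤ ∑ S ∈ M.filter (fun S => (S \ z).Nonempty), pr π (S \ z) := by
    unfold pr
    rw [sum_comm]
    refine sum_le_sum fun v _ => ?_
    rw [← mul_sum]
    by_cases hv : π v = 0
    · rw [hv, zero_mul]
    · obtain ⟨S, hS, hSz⟩ := (hmin v hv).mon h
      have hne := (hmin v hv).nonempty
      have h3 : (1 : ℝ) ≤ ∑ S ∈ M.filter (fun S => (S \ z).Nonempty),
          (if S \ z ⊆ v then (1 : ℝ) else 0) := by
        have h4 := single_le_sum (f := fun S => if S \ z ⊆ v then (1 : ℝ) else 0)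
          (s := M.filter (fun S => (S \ z).Nonempty))
          (fun S _ => by split_ifs <;> norm_num) (mem_filter.2 ⟨hM S hS, by
            rw [hSz]; exact hne⟩)
        rw [hSz, if_pos (subset_refl v)] at h4
        exact h4
      calc π v = π v * 1 := (mul_one _).symm
        _ ≤ _ := mul_le_mul_of_nonneg_left h3 (hπ v)
  rw [h1] at h2
  refine h2.trans ?_
  calc ∑ S ∈ M.filter (fun S => (S \ z).Nonempty), pr π (S \ z)
      ≤ ∑ S ∈ M.filter (fun S => (S \ z).Nonempty), η := by
        refine sum_le_sum fun S hS => ?_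
        rw [mem_filter] at hS
        exact htest S hS.1 hS.2
    _ = ((M.filter (fun S => (S \ z).Nonempty)).card : ℝ) * η := by
        rw [sum_const, nsmul_eq_mul]
    _ ≤ M.card * η := by
        refine mul_le_mul_of_nonneg_right ?_ hη
        exact_mod_cast card_filter_le _ _

theorem bad_iter {g : Finset ι → Bool} {c : Finset ι → ℝ} (h : Rep g c)
    {M : Finset (Finset ι)} (hM : ∀ S, c S ≠ 0 → S ∈ M) {m : ℕ}
    (hbl : ∀ (z : Finset ι) (B : Fin (m + 1) → Finset ι),
      (∀ i j, i ≠ j → Disjoint (B i) (B j)) → (∀ j, g (z ∪ B j) ≠ g z) → False)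
    (J : ℕ) : ∀ {η : ℝ}, 0 ≤ η → Bad g M (m + 1) J η →
      ∃ η', 0 ≤ η' ∧ Bad g M (m + 1) 0 η' ∧
        (((m : ℝ) + 2) * ((m : ℝ) + 1) ^ 2) * η' ≤
          ((((m : ℝ) + 2) * ((m : ℝ) + 1) ^ 2) * η) ^ (2 ^ J) := by
  induction J with
  | zero =>
    intro η hη hb
    exact ⟨η, hη, hb, by simp⟩
  | succ J ih =>
    intro η hη hb
    have h2 := bad_step h hM hbl hη hb
    obtain ⟨η', h3, h4, h5⟩ := ih (by positivity) h2
    refine ⟨η', h3, h4, h5.trans (le_of_eq ?_)⟩
    rw [pow_succ' 2 J, pow_mul]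
    congr 1
    ring

/-- **A definable set contained in many sets.** -/
theorem hitting {g : Finset ι → Bool} {c : Finset ι → ℝ} (h : Rep g c)
    {M : Finset (Finset ι)} (hM : ∀ S, c S ≠ 0 → S ∈ M) {d : ℕ} (hr : M.card < 2 ^ d)
    {J : ℕ} (hJ : d ≤ 2 ^ J) (z : Finset ι) (A : Finset (Finset ι)) (hA : A.Nonempty)
    (hAs : ∀ V ∈ A, ∃ B ⊆ V, g (z ∪ B) ≠ g z) :
    ∃ X ∈ Fam M (2 * d ^ 2 + 1) J, (X \ z).Nonempty ∧
      A.card ≤ (2 * ((2 * d ^ 2 + 2) * (2 * d ^ 2 + 1) ^ 2)) *
        (A.filter (fun V => X \ z ⊆ V)).card := by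
  classical
  set m := 2 * d ^ 2 with hm
  have hbl : ∀ (z : Finset ι) (B : Fin (m + 1) → Finset ι),
      (∀ i j, i ≠ j → Disjoint (B i) (B j)) → (∀ j, g (z ∪ B j) ≠ g z) → False := by
    intro z B h1 h2
    have := few_blocks h M hM hr z B h1 h2
    omega
  have hch : ∀ V, ∃ W, V ∈ A → W ⊆ V ∧ MinS g z W := by
    intro V
    by_cases hV : V ∈ A
    · obtain ⟨B, hB, hBg⟩ := hAs V hV
      obtain ⟨W, hW, hWm⟩ := exists_min g z B hBg
      exact ⟨W, fun _ => ⟨hW.trans hB, hWm⟩⟩
    · exact ⟨∅, fun h => absurd h hV⟩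
  choose τ hτ using hch
  by_contra hcon
  push Not at hcon
  set Q : ℝ := ((m : ℝ) + 2) * ((m : ℝ) + 1) ^ 2 with hQ
  have hQ1 : 1 ≤ Q := by
    have hm0 : (0 : ℝ) ≤ (m : ℝ) := Nat.cast_nonneg m
    have h1 : (1 : ℝ) ≤ (m : ℝ) + 2 := by linarith
    have h2 : (1 : ℝ) ≤ ((m : ℝ) + 1) ^ 2 := by nlinarith
    nlinarith
  have hAc : (0 : ℝ) < A.card := by exact_mod_cast card_pos.2 hA
  set π : Finset ι → ℝ := fun v => ((A.filter (fun V => τ V = v)).card : ℝ) / A.card with hπ
  have hsum : ∀ w : Finset ι → ℝ, ∑ v, π v * w v = (∑ V ∈ A, w (τ V)) / A.card := by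
    intro w
    have e1 : ∀ v, π v * w v = (∑ V ∈ A, if τ V = v then w v else 0) / A.card := by
      intro v
      rw [hπ]
      simp only
      rw [div_mul_eq_mul_div]
      congr 1
      rw [← sum_filter, sum_const, nsmul_eq_mul]
    rw [sum_congr rfl fun v _ => e1 v, ← sum_div, sum_comm]
    congr 1
    refine sum_congr rfl fun V _ => ?_
    rw [sum_ite_eq]
    simp
  have hbad : Bad g M (m + 1) J (1 / (2 * Q)) := by
    refine ⟨z, π, fun v => by rw [hπ]; positivity, ?_, ?_, ?_⟩
    · have := hsum (fun _ => 1)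
      simp only [mul_one] at this
      rw [this, sum_const, nsmul_eq_mul, mul_one]
      exact div_self hAc.ne'
    · intro v hv
      have h2 : (A.filter (fun V => τ V = v)).Nonempty := by
        rw [nonempty_iff_ne_empty]
        intro h0
        rw [hπ] at hv
        simp only [h0, card_empty, Nat.cast_zero, zero_div, ne_eq, not_true] at hv
      obtain ⟨V, hV⟩ := h2
      rw [mem_filter] at hV
      rw [← hV.2]
      exact (hτ V hV.1).2
    · intro X hX hne
      unfold pr
      rw [hsum]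
      have h3 := hcon X hX hne
      have h4 : (∑ V ∈ A, if X \ z ⊆ τ V then (1 : ℝ) else 0) ≤
          (A.filter (fun V => X \ z ⊆ V)).card := by
        rw [card_eq_sum_ones, Nat.cast_sum, sum_filter]
        refine sum_le_sum fun V hV => ?_
        by_cases h5 : X \ z ⊆ τ V
        · rw [if_pos h5, if_pos (h5.trans (hτ V hV).1)]
          simp
        · rw [if_neg h5]
          split_ifs <;> norm_num
      have h6 : (2 * Q) * ((A.filter (fun V => X \ z ⊆ V)).card : ℝ) ≤ A.card := by
        have h7 : ((2 * ((m + 2) * (m + 1) ^ 2) * (A.filter (fun V => X \ z ⊆ V)).card : ℕ) : ℝ) ≤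
            A.card := by exact_mod_cast h3.le
        push_cast at h7
        rw [hQ]
        exact h7
      rw [div_le_div_iff₀ hAc (by positivity), one_mul]
      calc (∑ V ∈ A, if X \ z ⊆ τ V then (1 : ℝ) else 0) * (2 * Q)
          ≤ (A.filter (fun V => X \ z ⊆ V)).card * (2 * Q) :=
            mul_le_mul_of_nonneg_right h4 (by positivity)
        _ = (2 * Q) * ((A.filter (fun V => X \ z ⊆ V)).card : ℝ) := by ring
        _ ≤ A.card := h6
  obtain ⟨η', h3, h4, h5⟩ := bad_iter h hM hbl J (by positivity) hbad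
  rw [← hQ] at h5
  have h6 := bad_zero h hM h3 h4
  have h7 : Q * (1 / (2 * Q)) = 1 / 2 := by
    field_simp
  rw [h7] at h5
  have h8 : ((1 : ℝ) / 2) ^ (2 ^ J) ≤ (1 / 2) ^ d :=
    pow_le_pow_of_le_one (by norm_num) (by norm_num) hJ
  have h9 : η' ≤ (1 / 2) ^ d := by
    calc η' = 1 * η' := (one_mul _).symm
      _ ≤ Q * η' := mul_le_mul_of_nonneg_right hQ1 h3
      _ ≤ _ := h5.trans h8
  have h10 : (M.card : ℝ) < 2 ^ d := by exact_mod_cast hr
  have h11 : (M.card : ℝ) * η' < 1 := by
    have h12 : (2 : ℝ) ^ d * (1 / 2) ^ d = 1 := by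
      rw [← mul_pow]
      norm_num
    rcases eq_or_lt_of_le h3 with h0 | h0
    · rw [← h0]; norm_num
    · calc (M.card : ℝ) * η' < 2 ^ d * η' := mul_lt_mul_of_pos_right h10 h0
        _ ≤ 2 ^ d * (1 / 2) ^ d := mul_le_mul_of_nonneg_left h9 (by positivity)
        _ = 1 := h12
  linarith

end Pool.Agent.N609.AndRank
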