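import Pool.Agent.N609.AndRank.Tree

/-!
# Definable sets contained in many monomials, weighted form
-/

set_option autoImplicit false
set_option linter.unusedSectionVars false
set_option linter.unusedVariables false

namespace Pool.Agent.N609.AndRank

open Finset Pool.Agent.TH744.LR

variable {ι : Type} [Fintype ι] [DecidableEq ι]

/-- **A definable set contained in many sets**, with weights. -/
theorem hittingW {g : Finset ι → Bool} {c : Finset ι → ℝ} (h : Rep g c)
    {M : Finset (Finset ι)} (hM : ∀ S, c S ≠ 0 → S ∈ M) {d : ℕ} (hr : M.card < 2 ^ d)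
    {J : ℕ} (hJ : d ≤ 2 ^ J) (z : Finset ι) (A : Finset (Finset ι)) (hA : A.Nonempty)
    (w : Finset ι → ℝ) (hw : ∀ V, 0 < w V)
    (hAs : ∀ V ∈ A, ∃ B ⊆ V, g (z ∪ B) ≠ g z) :
    ∃ X ∈ Fam M (2 * d ^ 2 + 1) J, (X \ z).Nonempty ∧
      ∑ V ∈ A, w V ≤ ((2 * ((2 * d ^ 2 + 2) * (2 * d ^ 2 + 1) ^ 2) : ℕ) : ℝ) *
        ∑ V ∈ A.filter (fun V => X \ z ⊆ V), w V := by
  classical
  set m := 2 * d ^ 2 with hm
  have hbl : ∀ (z : Finset ι) (B : Fin (m + 1) → Finset ι),
      (∀ i j, i ≠ j → Disjoint (B i) (B j)) → (∀ j, g (z ∪ B j) ≠ g z) → False := by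
    intro z B h1 h2
    have := few_blocks h M hM hr z B h1 h2
    omega
  have hch : ∀ V, ∃ W, V ∈ A → W ⊆ V ∧ MinS g z W := by
    intro V
    by_cases hV : V ∈ A
    · obtain ⟨B, hB, hBg⟩ := hAs V hV
      obtain ⟨W, hW, hWm⟩ := exists_min g z B hBg
      exact ⟨W, fun _ => ⟨hW.trans hB, hWm⟩⟩
    · exact ⟨∅, fun h => absurd h hV⟩
  choose τ hτ using hch
  by_contra hcon
  push Not at hcon
  set Q : ℝ := ((m : ℝ) + 2) * ((m : ℝ) + 1) ^ 2 with hQ
  have hQ1 : 1 ≤ Q := by
    have hm0 : (0 : ℝ) ≤ (m : ℝ) := Nat.cast_nonneg m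
    have h1 : (1 : ℝ) ≤ (m : ℝ) + 2 := by linarith
    have h2 : (1 : ℝ) ≤ ((m : ℝ) + 1) ^ 2 := by nlinarith
    nlinarith
  have hAc : (0 : ℝ) < ∑ V ∈ A, w V := sum_pos (fun V _ => hw V) hA
  set Wt : ℝ := ∑ V ∈ A, w V with hWt
  set π : Finset ι → ℝ := fun v => (∑ V ∈ A.filter (fun V => τ V = v), w V) / Wt with hπ
  have hsum : ∀ u : Finset ι → ℝ, ∑ v, π v * u v = (∑ V ∈ A, w V * u (τ V)) / Wt := by
    intro u
    have e1 : ∀ v, π v * u v = (∑ V ∈ A, if τ V = v then w V * u v else 0) / Wt := by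
      intro v
      rw [hπ]
      simp only
      rw [div_mul_eq_mul_div]
      congr 1
      rw [← sum_filter, sum_mul]
    rw [sum_congr rfl fun v _ => e1 v, ← sum_div, sum_comm]
    congr 1
    refine sum_congr rfl fun V _ => ?_
    rw [sum_ite_eq]
    simp
  have hbad : Bad g M (m + 1) J (1 / (2 * Q)) := by
    refine ⟨z, π, fun v => ?_, ?_, ?_, ?_⟩
    · exact div_nonneg (sum_nonneg fun V _ => (hw V).le) hAc.le
    · have := hsum (fun _ => 1)
      simp only [mul_one] at this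
      rw [this]
      exact div_self hAc.ne'
    · intro v hv
      have h2 : (A.filter (fun V => τ V = v)).Nonempty := by
        rw [nonempty_iff_ne_empty]
        intro h0
        rw [hπ] at hv
        simp only [h0, sum_empty, zero_div, ne_eq, not_true] at hv
      obtain ⟨V, hV⟩ := h2
      rw [mem_filter] at hV
      rw [← hV.2]
      exact (hτ V hV.1).2
    · intro X hX hne
      unfold pr
      rw [hsum]
      have h3 := hcon X hX hne
      have h4 : (∑ V ∈ A, w V * if X \ z ⊆ τ V then (1 : ℝ) else 0) ≤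
          ∑ V ∈ A.filter (fun V => X \ z ⊆ V), w V := by
        rw [sum_filter]
        refine sum_le_sum fun V hV => ?_
        by_cases h5 : X \ z ⊆ τ V
        · rw [if_pos h5, if_pos (h5.trans (hτ V hV).1), mul_one]
        · rw [if_neg h5, mul_zero]
          split_ifs
          · exact (hw V).le
          · exact le_rfl
      have h6 : (2 * Q) * (∑ V ∈ A.filter (fun V => X \ z ⊆ V), w V) ≤ Wt := by
        have h7 := h3.le
        push_cast at h7
        rw [hQ]
        exact h7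
      rw [div_le_div_iff₀ hAc (by positivity), one_mul]
      calc (∑ V ∈ A, w V * if X \ z ⊆ τ V then (1 : ℝ) else 0) * (2 * Q)
          ≤ (∑ V ∈ A.filter (fun V => X \ z ⊆ V), w V) * (2 * Q) :=
            mul_le_mul_of_nonneg_right h4 (by positivity)
        _ = (2 * Q) * (∑ V ∈ A.filter (fun V => X \ z ⊆ V), w V) := by ring
        _ ≤ Wt := h6
  obtain ⟨η', h3, h4, h5⟩ := bad_iter h hM hbl J (by positivity) hbad
  rw [← hQ] at h5
  have h6 := bad_zero h hM h3 h4
  have h7 : Q * (1 / (2 * Q)) = 1 / 2 := by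
    field_simp
  rw [h7] at h5
  have h8 : ((1 : ℝ) / 2) ^ (2 ^ J) ≤ (1 / 2) ^ d :=
    pow_le_pow_of_le_one (by norm_num) (by norm_num) hJ
  have h9 : η' ≤ (1 / 2) ^ d := by
    calc η' = 1 * η' := (one_mul _).symm
      _ ≤ Q * η' := mul_le_mul_of_nonneg_right hQ1 h3
      _ ≤ _ := h5.trans h8
  have h10 : (M.card : ℝ) < 2 ^ d := by exact_mod_cast hr
  have h11 : (M.card : ℝ) * η' < 1 := by
    have h12 : (2 : ℝ) ^ d * (1 / 2) ^ d = 1 := by
      rw [← mul_pow]
      norm_num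
    rcases eq_or_lt_of_le h3 with h0 | h0
    · rw [← h0]; norm_num
    · calc (M.card : ℝ) * η' < 2 ^ d * η' := mul_lt_mul_of_pos_right h10 h0
        _ ≤ 2 ^ d * (1 / 2) ^ d := mul_le_mul_of_nonneg_left h9 (by positivity)
        _ = 1 := h12
  linarith

theorem Fam_sub {M : Finset (Finset ι)} {L : ℕ} (j : ℕ) : ∀ X ∈ Fam M L j, ∃ S ∈ M, X ⊆ S := by
  induction j with
  | zero =>
    intro X hX
    exact ⟨X, hX, subset_refl _⟩
  | succ j ih =>
    intro X hX
    rw [Fam, mem_image] at hX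
    obtain ⟨p, hp, rfl⟩ := hX
    rw [mem_product] at hp
    obtain ⟨S, hS, hpS⟩ := ih p.1 hp.1
    exact ⟨S, hS, sdiff_subset.trans hpS⟩

end Pool.Agent.N609.AndRank
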