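import Pool.Agent.N609.AndRank.HitW
import Pool.Agent.TH744.LR.Main

/-!
# Protocols for compositions in which some of the inner functions are conjunctions
-/

set_option autoImplicit false
set_option linter.unusedSectionVars false
set_option linter.unusedVariables false

namespace Pool.Agent.N609.AndRank

open Finset Pool.Agent.TH744.LR

variable {ι : Type} [Fintype ι] [DecidableEq ι] {X Y : Type}

/-- the set of the inner functions with value `1` -/
def zs (φ : ι → X → Y → Bool) (x : X) (y : Y) : Finset ι := univ.filter (fun i => φ i x y = true)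

theorem mem_zs {φ : ι → X → Y → Bool} {x : X} {y : Y} {i : ι} : i ∈ zs φ x y ↔ φ i x y = true := by
  simp [zs]

/-- on the pairs with `R (zs φ x y)` the value `g (zs φ x y)` is computed with `k` bits -/
def CompM (φ : ι → X → Y → Bool) (g : Finset ι → Bool) (R : Finset ι → Prop) (k : ℕ) : Prop :=
  ∃ Φ : X → Y → Bool, Prot Φ k ∧ ∀ x y, R (zs φ x y) → Φ x y = g (zs φ x y)

theorem CompM.mono {φ : ι → X → Y → Bool} {g : Finset ι → Bool} {R R' : Finset ι → Prop}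
    {k k' : ℕ} (h : CompM φ g R k) (hR : ∀ z, R' z → R z) (hk : k ≤ k') : CompM φ g R' k' := by
  obtain ⟨Φ, h1, h2⟩ := h
  exact ⟨Φ, h1.mono hk, fun x y hxy => h2 x y (hR _ hxy)⟩

theorem CompM.const {φ : ι → X → Y → Bool} {g : Finset ι → Bool} {R : Finset ι → Prop} {v : Bool}
    (h : ∀ z, R z → g z = v) (k : ℕ) : CompM φ g R k :=
  ⟨fun _ _ => v, (Prot.const v).mono (Nat.zero_le k), fun x y hxy => (h _ hxy).symm⟩

theorem CompM.query {φ : ι → X → Y → Bool} {g : Finset ι → Bool} {R : Finset ι → Prop} {k b : ℕ}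
    (Ts : Finset ι → Prop) {D : X → Y → Bool} (hD : Prot D b)
    (hDT : ∀ x y, D x y = true ↔ Ts (zs φ x y))
    (h1 : CompM φ g (fun z => R z ∧ Ts z) k) (h0 : CompM φ g (fun z => R z ∧ ¬ Ts z) k) :
    CompM φ g R (k + b) := by
  obtain ⟨Φ1, hp1, hc1⟩ := h1
  obtain ⟨Φ0, hp0, hc0⟩ := h0
  have h := Prot.bind hD (F := fun v x y => if v then Φ1 x y else Φ0 x y) (b := k) (by
    intro v
    cases v
    · simpa using hp0
    · simpa using hp1)
  refine ⟨_, h.mono (by omega), fun x y hxy => ?_⟩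
  by_cases hT : D x y = true
  · simp only [hT, if_true]
    exact hc1 x y ⟨hxy, (hDT x y).1 hT⟩
  · simp only [hT]
    exact hc0 x y ⟨hxy, fun hc => hT ((hDT x y).2 hc)⟩

open Classical in
theorem prot_and {φ : ι → X → Y → Bool} (T : Finset ι)
    (hT : ∀ i ∈ T, ∃ (u : X → Bool) (v : Y → Bool), ∀ x y, φ i x y = (u x && v y)) :
    Prot (fun x y => decide (T ⊆ zs φ x y)) 2 := by
  have : ∀ i, ∃ (u : X → Bool) (v : Y → Bool), i ∈ T → ∀ x y, φ i x y = (u x && v y) := by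
    intro i
    by_cases hi : i ∈ T
    · obtain ⟨u, v, h⟩ := hT i hi
      exact ⟨u, v, fun _ => h⟩
    · exact ⟨fun _ => true, fun _ => true, fun h => absurd h hi⟩
  choose u v huv using this
  have h := Prot.bind (Prot.alice (X := X) (Y := Y) (fun x => decide (∀ i ∈ T, u i x = true)))
    (F := fun w x y => w && decide (∀ i ∈ T, v i y = true)) (b := 1) (by
      intro w
      cases w
      · simp only [Bool.false_and]
        exact (Prot.const false).mono (Nat.zero_le _)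
      · simp only [Bool.true_and]
        exact Prot.bob _)
  have e : (fun x y => decide (T ⊆ zs φ x y)) =
      fun x y => (decide (∀ i ∈ T, u i x = true) && decide (∀ i ∈ T, v i y = true)) := by
    funext x y
    rw [← Bool.decide_and]
    refine decide_eq_decide.2 ?_
    constructor
    · intro h
      constructor
      · intro i hi
        have h1 := mem_zs.1 (h hi)
        rw [huv i hi, Bool.and_eq_true] at h1
        exact h1.1
      · intro i hi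
        have h1 := mem_zs.1 (h hi)
        rw [huv i hi, Bool.and_eq_true] at h1
        exact h1.2
    · intro h i hi
      rw [mem_zs, huv i hi, Bool.and_eq_true]
      exact ⟨h.1 i hi, h.2 i hi⟩
  rw [e]
  exact h

open Classical in
theorem prot_seq {φ : ι → X → Y → Bool} {q : ι → ℕ} (hq : ∀ i, Prot (φ i) (q i)) (T : Finset ι) :
    Prot (fun x y => decide (T ⊆ zs φ x y)) (∑ i ∈ T, q i) := by
  induction T using Finset.induction_on with
  | empty =>
    have e : (fun (x : X) (y : Y) => decide (∅ ⊆ zs φ x y)) = fun _ _ => true := by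
      funext x y
      simp
    rw [e]
    exact Prot.const true
  | insert i T hi ih =>
    rw [sum_insert hi]
    have h := Prot.bind (hq i) (F := fun w x y => w && decide (T ⊆ zs φ x y))
      (b := ∑ i ∈ T, q i) (by
        intro w
        cases w
        · simp only [Bool.false_and]
          exact (Prot.const false).mono (Nat.zero_le _)
        · simp only [Bool.true_and]
          exact ih)
    have e : (fun x y => decide (insert i T ⊆ zs φ x y)) =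
        fun x y => (φ i x y && decide (T ⊆ zs φ x y)) := by
      funext x y
      rw [Bool.eq_iff_iff, decide_eq_true_iff, Bool.and_eq_true, decide_eq_true_iff,
        insert_subset_iff, mem_zs]
    rw [e]
    exact h

open Classical in
/-- the containment of a set in the set of true inner functions -/
theorem prot_sub_mix {φ : ι → X → Y → Bool} {q : ι → ℕ} (hq : ∀ i, Prot (φ i) (q i))
    (I₂ : Finset ι)
    (hI : ∀ i, i ∉ I₂ → ∃ (u : X → Bool) (v : Y → Bool), ∀ x y, φ i x y = (u x && v y))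
    (T : Finset ι) : Prot (fun x y => decide (T ⊆ zs φ x y)) (∑ i ∈ T ∩ I₂, q i + 2) := by
  have h1 := prot_seq hq (T ∩ I₂)
  have h2 := prot_and (φ := φ) (T \ I₂) (fun i hi => hI i (mem_sdiff.1 hi).2)
  have h := Prot.bind h1 (F := fun w x y => w && decide (T \ I₂ ⊆ zs φ x y)) (b := 2) (by
      intro w
      cases w
      · simp only [Bool.false_and]
        exact (Prot.const false).mono (Nat.zero_le _)
      · simp only [Bool.true_and]
        exact h2)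
  have e : (fun x y => decide (T ⊆ zs φ x y)) =
      fun x y => (decide (T ∩ I₂ ⊆ zs φ x y) && decide (T \ I₂ ⊆ zs φ x y)) := by
    funext x y
    rw [← Bool.decide_and]
    refine decide_eq_decide.2 ?_
    constructor
    · intro h
      exact ⟨inter_subset_left.trans h, sdiff_subset.trans h⟩
    · intro h i hi
      by_cases hi2 : i ∈ I₂
      · exact h.1 (mem_inter.2 ⟨hi, hi2⟩)
      · exact h.2 (mem_sdiff.2 ⟨hi, hi2⟩)
  rw [e]
  exact h

/-- binary search -/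
theorem CompM.search {φ : ι → X → Y → Bool} {g : Finset ι → Bool} {R : Finset ι → Prop} {k : ℕ}
    (I₂ : Finset ι)
    (hI : ∀ i, i ∉ I₂ → ∃ (u : X → Bool) (v : Y → Bool), ∀ x y, φ i x y = (u x && v y))
    (A₀ : Finset ι) (hR : ∀ z, R z → A₀ ⊆ z) (A : ℕ → Finset ι)
    (t : ℕ) : ∀ (a b : ℕ), a ≤ b → b < a + 2 ^ t → (∀ i ≤ b, ∀ x ∈ A i \ A₀, x ∉ I₂) →
      (∀ i, a ≤ i → i < b → CompM φ g (fun z => R z ∧ A i ⊆ z ∧ ¬ A (i + 1) ⊆ z) k) →
      ∀ Q : Finset ι → Prop, CompM φ g (fun z => R z ∧ A b ⊆ z ∧ Q z) k →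
      CompM φ g (fun z => R z ∧ A a ⊆ z ∧ Q z) (k + 2 * t) := by
  classical
  induction t with
  | zero =>
    intro a b hab hb _ _ Q hQ
    have : b = a := by
      rw [pow_zero] at hb
      omega
    subst this
    simpa using hQ
  | succ t ih =>
    intro a b hab hb hI2 hi Q hQ
    by_cases hb' : b < a + 2 ^ t
    · exact (ih a b hab hb' hI2 hi Q hQ).mono (fun _ h => h) (by omega)
    · rw [not_lt] at hb'
      have hpos : 0 < 2 ^ t := by positivity
      have h1 := ih (a + 2 ^ t) b hb' (by rw [pow_succ] at hb; omega) hI2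
        (fun i h2 h3 => hi i (by omega) h3) Q hQ
      have h0 := ih a (a + 2 ^ t - 1) (by omega) (by omega) (fun i h2 => hI2 i (by omega))
        (fun i h2 h3 => hi i h2 (by omega)) (fun z => ¬ A (a + 2 ^ t) ⊆ z) (by
          have h2 := hi (a + 2 ^ t - 1) (by omega) (by omega)
          have e : a + 2 ^ t - 1 + 1 = a + 2 ^ t := by omega
          rw [e] at h2
          exact h2)
      have hTp := prot_and (φ := φ) (A (a + 2 ^ t) \ A₀)
        (fun i hi' => hI i (hI2 _ hb' i hi'))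
      have heq : ∀ z, R z → (A (a + 2 ^ t) \ A₀ ⊆ z ↔ A (a + 2 ^ t) ⊆ z) := by
        intro z hz
        rw [sdiff_sub, union_eq_right.2 (hR z hz)]
      have h3 := CompM.query (R := fun z => R z ∧ A a ⊆ z ∧ Q z)
        (fun z => A (a + 2 ^ t) \ A₀ ⊆ z) hTp (fun x y => decide_eq_true_iff)
        (h1.mono (fun z hz => ⟨hz.1.1, (heq z hz.1.1).1 hz.2, hz.1.2.2⟩) le_rfl)
        (h0.mono (fun z hz => ⟨hz.1.1, hz.1.2.1, fun hc => hz.2 ((heq z hz.1.1).2 hc)⟩) le_rfl)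
      exact h3.mono (fun _ h => h) (by omega)

/-- the weight of a monomial -/
noncomputable def wt (I₂ V : Finset ι) : ℝ := 2 ^ (V ∩ I₂).card

theorem wt_pos (I₂ V : Finset ι) : 0 < wt I₂ V := by
  unfold wt
  positivity

theorem one_le_wt (I₂ V : Finset ι) : 1 ≤ wt I₂ V := one_le_pow₀ (by norm_num)

theorem wt_mono {I₂ V W : Finset ι} (h : V ⊆ W) : wt I₂ V ≤ wt I₂ W :=
  pow_le_pow_right₀ (by norm_num) (card_le_card (inter_subset_inter_right h))

theorem wt_half {I₂ V W : Finset ι} (h : W ⊆ V) {i : ι} (hi : i ∈ I₂) (hiW : i ∉ W) (hiV : i ∈ V) :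
    wt I₂ W ≤ wt I₂ V / 2 := by
  have h1 : (W ∩ I₂).card + 1 ≤ (V ∩ I₂).card := by
    refine card_lt_card ?_
    rw [Finset.ssubset_iff_of_subset (inter_subset_inter_right h)]
    exact ⟨i, mem_inter.2 ⟨hiV, hi⟩, fun hc => hiW (mem_inter.1 hc).1⟩
  unfold wt
  rw [le_div_iff₀ (by norm_num), ← pow_succ]
  exact pow_le_pow_right₀ (by norm_num) h1

theorem sum_image_le_sum {α : Type} [DecidableEq α] (s : Finset α) (p : α → α) (w : α → ℝ)
    (hw : ∀ a, 0 ≤ w a) : ∑ b ∈ s.image p, w b ≤ ∑ a ∈ s, w (p a) := by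
  induction s using Finset.induction_on with
  | empty => simp
  | insert a s ha ih =>
    rw [image_insert, sum_insert ha]
    by_cases h : p a ∈ s.image p
    · rw [insert_eq_of_mem h]
      linarith [hw (p a)]
    · rw [sum_insert h]
      linarith

/-- the potential -/
noncomputable def Po (c : Finset ι → ℝ) (I₂ A : Finset ι) (Dn : Finset ι → Prop) : ℝ :=
  ∑ V ∈ Al c A Dn, wt I₂ V

theorem Po_nonneg (c : Finset ι → ℝ) (I₂ A : Finset ι) (Dn : Finset ι → Prop) :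
    0 ≤ Po c I₂ A Dn := sum_nonneg fun V _ => (wt_pos I₂ V).le

theorem Al_sub_image {c : Finset ι → ℝ} {A A' : Finset ι} (hAA : A ⊆ A')
    {Dn : Finset ι → Prop} (hDn : ∀ z z', z' ⊆ z → Dn z → Dn z') :
    Al c A' Dn ⊆ (Al c A Dn).image (fun V => V \ A') := by
  intro V' hV'
  rw [mem_Al] at hV'
  obtain ⟨hne, hc, hd⟩ := hV'
  have h1 : cof c A' V' = ∑ V ∈ univ.filter (fun V => V \ A' = V'), cof c A V := by
    unfold cof
    rw [← sum_biUnion]
    · refine sum_congr ?_ fun _ _ => rfl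
      ext S
      simp only [mem_filter, mem_univ, true_and, mem_biUnion]
      constructor
      · intro hS
        refine ⟨S \ A, ?_, rfl⟩
        rw [← hS, sdiff_sdiff_left]
        congr 1
        exact union_eq_right.2 hAA
      · rintro ⟨V, hV, hS⟩
        rw [← hV, ← hS, sdiff_sdiff_left]
        congr 1
        exact (union_eq_right.2 hAA).symm
    · intro V _ W _ hVW
      rw [Function.onFun, disjoint_left]
      intro S hS hS'
      rw [mem_filter] at hS hS'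
      exact hVW (hS.2.symm.trans hS'.2)
  rw [h1] at hc
  obtain ⟨V, hV, hVc⟩ := exists_ne_zero_of_sum_ne_zero hc
  rw [mem_filter] at hV
  rw [mem_image]
  refine ⟨V, ?_, hV.2⟩
  rw [mem_Al]
  refine ⟨?_, hVc, hDn _ _ ?_ hd⟩
  · rw [← hV.2] at hne
    exact hne.mono sdiff_subset
  · refine union_subset (hAA.trans subset_union_left) ?_
    rw [← hV.2]
    intro x hx
    by_cases hxA : x ∈ A'
    · exact mem_union_left _ hxA
    · exact mem_union_right _ (mem_sdiff.2 ⟨hx, hxA⟩)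

theorem Po_le_sum {c : Finset ι → ℝ} {I₂ A A' : Finset ι} (hAA : A ⊆ A')
    {Dn : Finset ι → Prop} (hDn : ∀ z z', z' ⊆ z → Dn z → Dn z') :
    Po c I₂ A' Dn ≤ ∑ V ∈ Al c A Dn, wt I₂ (V \ A') := by
  unfold Po
  refine (sum_le_sum_of_subset_of_nonneg (Al_sub_image hAA hDn)
    (fun V _ _ => (wt_pos I₂ V).le)).trans ?_
  exact sum_image_le_sum _ _ _ (fun V => (wt_pos I₂ V).le)

theorem Po_mono {c : Finset ι → ℝ} {I₂ A A' : Finset ι} (hAA : A ⊆ A')
    {Dn : Finset ι → Prop} (hDn : ∀ z z', z' ⊆ z → Dn z → Dn z') :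
    Po c I₂ A' Dn ≤ Po c I₂ A Dn :=
  (Po_le_sum hAA hDn).trans (sum_le_sum fun V _ => wt_mono sdiff_subset)

theorem Po_kill {c : Finset ι → ℝ} {I₂ A X : Finset ι} {Dn : Finset ι → Prop} {q : ℝ}
    (hq : 0 < q)
    (h : ∑ V ∈ Al c A Dn, wt I₂ V ≤ q * ∑ V ∈ (Al c A Dn).filter (fun V => X \ A ⊆ V), wt I₂ V) :
    Po c I₂ A (fun z => Dn z ∧ ¬ X ⊆ z) ≤ (1 - 1 / q) * Po c I₂ A Dn := by
  classical
  have h1 : Po c I₂ A (fun z => Dn z ∧ ¬ X ⊆ z) +
      ∑ V ∈ (Al c A Dn).filter (fun V => X \ A ⊆ V), wt I₂ V ≤ Po c I₂ A Dn := by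
    unfold Po
    rw [← sum_filter_add_sum_filter_not (Al c A Dn) (fun V => X \ A ⊆ V)
      (fun V => wt I₂ V), add_comm]
    refine add_le_add le_rfl (sum_le_sum_of_subset_of_nonneg ?_ (fun V _ _ => (wt_pos I₂ V).le))
    intro V hV
    rw [mem_Al] at hV
    rw [mem_filter, mem_Al]
    refine ⟨⟨hV.1, hV.2.1, hV.2.2.1⟩, fun h2 => hV.2.2.2 ?_⟩
    rwa [← sdiff_sub]
  have h4 : Po c I₂ A Dn / q ≤ ∑ V ∈ (Al c A Dn).filter (fun V => X \ A ⊆ V), wt I₂ V := by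
    rw [div_le_iff₀ hq]
    unfold Po
    linarith
  have h5 : (1 - 1 / q) * Po c I₂ A Dn = Po c I₂ A Dn - Po c I₂ A Dn / q := by ring
  rw [h5]
  linarith

theorem Po_pos {c : Finset ι → ℝ} {I₂ A X : Finset ι} {Dn : Finset ι → Prop} {q : ℝ}
    (hq : 0 < q) (hDn : ∀ z z', z' ⊆ z → Dn z → Dn z') {i : ι} (hi : i ∈ X \ A) (hi2 : i ∈ I₂)
    (h : ∑ V ∈ Al c A Dn, wt I₂ V ≤ q * ∑ V ∈ (Al c A Dn).filter (fun V => X \ A ⊆ V), wt I₂ V) :
    Po c I₂ (A ∪ X) Dn ≤ (1 - 1 / (2 * q)) * Po c I₂ A Dn := by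
  classical
  have h0 := Po_le_sum (c := c) (I₂ := I₂) (A := A) (A' := A ∪ X) subset_union_left hDn
  have h1 : ∑ V ∈ Al c A Dn, wt I₂ (V \ (A ∪ X)) ≤
      Po c I₂ A Dn - (∑ V ∈ (Al c A Dn).filter (fun V => X \ A ⊆ V), wt I₂ V) / 2 := by
    unfold Po
    rw [← sum_filter_add_sum_filter_not (Al c A Dn) (fun V => X \ A ⊆ V)
      (fun V => wt I₂ (V \ (A ∪ X))), ← sum_filter_add_sum_filter_not (Al c A Dn)
      (fun V => X \ A ⊆ V) (fun V => wt I₂ V)]
    have h2 : ∑ V ∈ (Al c A Dn).filter (fun V => X \ A ⊆ V), wt I₂ (V \ (A ∪ X)) ≤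
        (∑ V ∈ (Al c A Dn).filter (fun V => X \ A ⊆ V), wt I₂ V) / 2 := by
      rw [sum_div]
      refine sum_le_sum fun V hV => ?_
      rw [mem_filter] at hV
      refine wt_half sdiff_subset hi2 ?_ (hV.2 hi)
      rw [mem_sdiff]
      exact fun hc => hc.2 (mem_union_right _ (mem_sdiff.1 hi).1)
    have h3 : ∑ V ∈ (Al c A Dn).filter (fun V => ¬ X \ A ⊆ V), wt I₂ (V \ (A ∪ X)) ≤
        ∑ V ∈ (Al c A Dn).filter (fun V => ¬ X \ A ⊆ V), wt I₂ V :=
      sum_le_sum fun V _ => wt_mono sdiff_subset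
    linarith
  have h4 : Po c I₂ A Dn / q ≤ ∑ V ∈ (Al c A Dn).filter (fun V => X \ A ⊆ V), wt I₂ V := by
    rw [div_le_iff₀ hq]
    unfold Po
    linarith
  have h5 : (1 - 1 / (2 * q)) * Po c I₂ A Dn = Po c I₂ A Dn - Po c I₂ A Dn / q / 2 := by
    field_simp
  rw [h5]
  linarith

/-- what is found at a set `A` -/
def Hit (c : Finset ι → ℝ) (I₂ : Finset ι) (Dn : Finset ι → Prop) (q : ℝ) (A X : Finset ι) :
    Prop :=
  ∑ V ∈ Al c A Dn, wt I₂ V ≤ q * ∑ V ∈ (Al c A Dn).filter (fun V => X \ A ⊆ V), wt I₂ V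

/-- the end of the chain -/
def Stop (c : Finset ι → ℝ) (I₂ : Finset ι) (Dn : Finset ι → Prop) (q : ℝ)
    (F : Finset (Finset ι)) (A : Finset ι) : Prop :=
  Al c A Dn = ∅ ∨ ∃ X ∈ F, (∃ i ∈ X \ A, i ∈ I₂) ∧ Hit c I₂ Dn q A X

theorem chain_consM {c : Finset ι → ℝ} {I₂ : Finset ι} {Dn : Finset ι → Prop} {n m : ℕ} {q : ℝ}
    {F : Finset (Finset ι)} {A₀ X₀ : Finset ι} (hX₀ : ∀ i ∈ X₀ \ A₀, i ∉ I₂)
    {A X : ℕ → Finset ι} (hm : m ≤ n) (hA0 : A 0 = A₀ ∪ X₀) (hAm : Stop c I₂ Dn q F (A m))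
    (hAs : ∀ i ≤ m, A₀ ∪ X₀ ⊆ A i ∧ ∀ x ∈ A i \ (A₀ ∪ X₀), x ∉ I₂)
    (hAi : ∀ i < m, A (i + 1) = A i ∪ X i ∧ Hit c I₂ Dn q (A i) (X i))
    (hX : Hit c I₂ Dn q A₀ X₀) :
    ∃ (m' : ℕ) (A' X' : ℕ → Finset ι), m' ≤ n + 1 ∧ A' 0 = A₀ ∧ Stop c I₂ Dn q F (A' m') ∧
        (∀ i ≤ m', A₀ ⊆ A' i ∧ ∀ x ∈ A' i \ A₀, x ∉ I₂) ∧
        ∀ i < m', A' (i + 1) = A' i ∪ X' i ∧ Hit c I₂ Dn q (A' i) (X' i) := by
  let A' : ℕ → Finset ι := fun i => match i with
    | 0 => A₀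
    | i + 1 => A i
  let X' : ℕ → Finset ι := fun i => match i with
    | 0 => X₀
    | i + 1 => X i
  refine ⟨m + 1, A', X', by omega, rfl, hAm, ?_, ?_⟩
  · intro i hi
    cases i with
    | zero =>
      refine ⟨subset_refl _, fun x hx => ?_⟩
      simp [A'] at hx
    | succ i =>
      obtain ⟨h1, h2⟩ := hAs i (by omega)
      refine ⟨subset_union_left.trans h1, fun x hx => ?_⟩
      have hx' : x ∈ A i ∧ x ∉ A₀ := mem_sdiff.1 hx
      by_cases hxX : x ∈ X₀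
      · exact hX₀ x (mem_sdiff.2 ⟨hxX, hx'.2⟩)
      · refine h2 x (mem_sdiff.2 ⟨hx'.1, ?_⟩)
        rw [mem_union]
        exact fun h => h.elim hx'.2 hxX
  · intro i hi
    cases i with
    | zero => exact ⟨hA0, hX⟩
    | succ i => exact hAi i (by omega)

theorem exists_chainM {g : Finset ι → Bool} {c : Finset ι → ℝ} (h : Rep g c)
    {M : Finset (Finset ι)} (hM : ∀ S, c S ≠ 0 → S ∈ M) {d : ℕ} (hr : M.card < 2 ^ d)
    {J : ℕ} (hJ : d ≤ 2 ^ J) (I₂ : Finset ι) {Dn : Finset ι → Prop} (n : ℕ) :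
    ∀ A₀ : Finset ι, ((Fam M (2 * d ^ 2 + 1) J).filter (fun X => ¬ X ⊆ A₀)).card ≤ n →
      ∃ (m : ℕ) (A X : ℕ → Finset ι), m ≤ n ∧ A 0 = A₀ ∧
        Stop c I₂ Dn ((2 * ((2 * d ^ 2 + 2) * (2 * d ^ 2 + 1) ^ 2) : ℕ) : ℝ)
          (Fam M (2 * d ^ 2 + 1) J) (A m) ∧
        (∀ i ≤ m, A₀ ⊆ A i ∧ ∀ x ∈ A i \ A₀, x ∉ I₂) ∧
        ∀ i < m, A (i + 1) = A i ∪ X i ∧
          Hit c I₂ Dn ((2 * ((2 * d ^ 2 + 2) * (2 * d ^ 2 + 1) ^ 2) : ℕ) : ℝ) (A i) (X i) := by
  classical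
  have base : ∀ (n : ℕ) (A₀ : Finset ι),
      Stop c I₂ Dn ((2 * ((2 * d ^ 2 + 2) * (2 * d ^ 2 + 1) ^ 2) : ℕ) : ℝ)
          (Fam M (2 * d ^ 2 + 1) J) A₀ →
      ∃ (m : ℕ) (A X : ℕ → Finset ι), m ≤ n ∧ A 0 = A₀ ∧
        Stop c I₂ Dn ((2 * ((2 * d ^ 2 + 2) * (2 * d ^ 2 + 1) ^ 2) : ℕ) : ℝ)
          (Fam M (2 * d ^ 2 + 1) J) (A m) ∧
        (∀ i ≤ m, A₀ ⊆ A i ∧ ∀ x ∈ A i \ A₀, x ∉ I₂) ∧
        ∀ i < m, A (i + 1) = A i ∪ X i ∧
          Hit c I₂ Dn ((2 * ((2 * d ^ 2 + 2) * (2 * d ^ 2 + 1) ^ 2) : ℕ) : ℝ) (A i) (X i) := by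
    intro n A₀ hs
    refine ⟨0, fun _ => A₀, fun _ => ∅, Nat.zero_le _, rfl, hs, fun i _ => ⟨subset_refl _, ?_⟩,
      fun i hi => absurd hi (by omega)⟩
    intro x hx
    simp at hx
  induction n with
  | zero =>
    intro A₀ hA₀
    refine base 0 A₀ (Or.inl ?_)
    by_contra hne
    obtain ⟨X, hX, hXne, -⟩ := hitting h hM hr hJ A₀ (Al c A₀ Dn) (nonempty_iff_ne_empty.2 hne)
      (fun V hV => by
        rw [mem_Al] at hV
        obtain ⟨B, hB, hBg⟩ := (rep_shift h A₀).nonconst hV.2.1 hV.1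
        exact ⟨B, hB, by simpa using hBg⟩)
    have h1 : X ∈ (Fam M (2 * d ^ 2 + 1) J).filter (fun X => ¬ X ⊆ A₀) :=
      mem_filter.2 ⟨hX, sdiff_nonempty.1 hXne⟩
    rw [Nat.le_zero, card_eq_zero] at hA₀
    rw [hA₀] at h1
    simp at h1
  | succ n ih =>
    intro A₀ hA₀
    by_cases hne : Al c A₀ Dn = ∅
    · exact base _ A₀ (Or.inl hne)
    · obtain ⟨X, hX, hXne, hXc⟩ := hittingW h hM hr hJ A₀ (Al c A₀ Dn)
        (nonempty_iff_ne_empty.2 hne) (wt I₂) (wt_pos I₂) (fun V hV => by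
          rw [mem_Al] at hV
          obtain ⟨B, hB, hBg⟩ := (rep_shift h A₀).nonconst hV.2.1 hV.1
          exact ⟨B, hB, by simpa using hBg⟩)
      by_cases hu : ∃ i ∈ X \ A₀, i ∈ I₂
      · exact base _ A₀ (Or.inr ⟨X, hX, hu, hXc⟩)
      · have h2 : ((Fam M (2 * d ^ 2 + 1) J).filter (fun Y => ¬ Y ⊆ A₀ ∪ X)).card <
            ((Fam M (2 * d ^ 2 + 1) J).filter (fun Y => ¬ Y ⊆ A₀)).card := by
          refine card_lt_card ?_
          rw [Finset.ssubset_iff_subset_ne]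
          constructor
          · intro Y hY
            rw [mem_filter] at hY ⊢
            exact ⟨hY.1, fun h3 => hY.2 (h3.trans subset_union_left)⟩
          · intro he
            have h3 : X ∈ (Fam M (2 * d ^ 2 + 1) J).filter (fun Y => ¬ Y ⊆ A₀) :=
              mem_filter.2 ⟨hX, sdiff_nonempty.1 hXne⟩
            rw [← he, mem_filter] at h3
            exact h3.2 subset_union_right
        obtain ⟨m, A, Y, hm, hA0, hAm, hAs, hAi⟩ := ih (A₀ ∪ X) (by omega)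
        push Not at hu
        exact chain_consM hu hm hA0 hAm hAs hAi hXc

theorem main_recM {φ : ι → X → Y → Bool} {q : ι → ℕ} (hφ : ∀ i, Prot (φ i) (q i))
    (I₂ : Finset ι)
    (hI : ∀ i, i ∉ I₂ → ∃ (u : X → Bool) (v : Y → Bool), ∀ x y, φ i x y = (u x && v y))
    {g : Finset ι → Bool} {c : Finset ι → ℝ} (h : Rep g c)
    {M : Finset (Finset ι)} (hM : ∀ S, c S ≠ 0 → S ∈ M) {d : ℕ} (hr : M.card < 2 ^ d)
    {Q : ℕ} (hQ : ∀ S ∈ M, ∑ i ∈ S ∩ I₂, q i ≤ Q)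
    {J : ℕ} (hJ : d ≤ 2 ^ J) {w : ℕ} (hw : (Fam M (2 * d ^ 2 + 1) J).card < 2 ^ w) (t : ℕ) :
    ∀ (A : Finset ι) (Dn : Finset ι → Prop), (∀ z z', z' ⊆ z → Dn z → Dn z') →
      Po c I₂ A Dn * (1 - 1 /
        (2 * ((2 * ((2 * d ^ 2 + 2) * (2 * d ^ 2 + 1) ^ 2) : ℕ) : ℝ))) ^ t < 1 →
      CompM φ g (fun z => Dn z ∧ A ⊆ z) ((2 * w + (Q + 2)) * t) := by
  classical
  set r : ℝ := ((2 * ((2 * d ^ 2 + 2) * (2 * d ^ 2 + 1) ^ 2) : ℕ) : ℝ) with hrdef
  have hr1 : (1 : ℝ) ≤ r := by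
    rw [hrdef]
    have : 0 < 2 * ((2 * d ^ 2 + 2) * (2 * d ^ 2 + 1) ^ 2) := by positivity
    exact_mod_cast this
  have hr0 : 0 < r := by linarith
  clear_value r
  have hfr : (0 : ℝ) ≤ 1 - 1 / (2 * r) := by
    have : 1 / (2 * r) ≤ 1 := by
      rw [div_le_one (by linarith)]
      linarith
    linarith
  have hfr2 : 1 - 1 / r ≤ 1 - 1 / (2 * r) := by
    have : 1 / (2 * r) ≤ 1 / r := one_div_le_one_div_of_le hr0 (by linarith)
    linarith
  induction t with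
  | zero =>
    intro A Dn hDn h1
    rw [pow_zero, mul_one] at h1
    have h2 : Al c A Dn = ∅ := by
      by_contra hne
      obtain ⟨V, hV⟩ := nonempty_iff_ne_empty.2 hne
      have h3 := single_le_sum (f := fun V => wt I₂ V) (fun V _ => (wt_pos I₂ V).le) hV
      have h4 := one_le_wt I₂ V
      unfold Po at h1
      linarith
    exact CompM.const (v := g A) (fun z hz => Al_empty h hDn h2 z hz.2 hz.1) _
  | succ t ih =>
    intro A₀ Dn hDn h1
    obtain ⟨m, A, Xc, hm, hA0, hAm, hAs, hAi⟩ :=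
      exists_chainM (Dn := Dn) h hM hr hJ I₂ _ A₀ le_rfl
    rw [← hrdef] at hAm hAi
    have hm2 : m < 0 + 2 ^ w := by
      rw [zero_add]
      exact lt_of_le_of_lt (hm.trans (card_filter_le _ _)) hw
    have hkill : ∀ A' X', A₀ ⊆ A' → Hit c I₂ Dn r A' X' →
        CompM φ g (fun z => (Dn z ∧ ¬ X' ⊆ z) ∧ A' ⊆ z) ((2 * w + (Q + 2)) * t) := by
      intro A' X' hA' hX'
      refine ih A' (fun z => Dn z ∧ ¬ X' ⊆ z) ?_ ?_
      · intro z z' hz h6
        exact ⟨hDn z z' hz h6.1, fun h7 => h6.2 (h7.trans hz)⟩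
      · refine lt_of_le_of_lt ?_ h1
        have h5 := Po_kill hr0 hX'
        have h6 := Po_mono (c := c) (I₂ := I₂) hA' hDn
        have h7 := Po_nonneg c I₂ A' Dn
        calc Po c I₂ A' (fun z => Dn z ∧ ¬ X' ⊆ z) * (1 - 1 / (2 * r)) ^ t
            ≤ ((1 - 1 / r) * Po c I₂ A' Dn) * (1 - 1 / (2 * r)) ^ t :=
              mul_le_mul_of_nonneg_right h5 (pow_nonneg hfr t)
          _ ≤ ((1 - 1 / (2 * r)) * Po c I₂ A' Dn) * (1 - 1 / (2 * r)) ^ t :=
              mul_le_mul_of_nonneg_right (mul_le_mul_of_nonneg_right hfr2 h7) (pow_nonneg hfr t)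
          _ ≤ ((1 - 1 / (2 * r)) * Po c I₂ A₀ Dn) * (1 - 1 / (2 * r)) ^ t :=
              mul_le_mul_of_nonneg_right (mul_le_mul_of_nonneg_left h6 hfr) (pow_nonneg hfr t)
          _ = _ := by rw [pow_succ]; ring
    have hend : CompM φ g (fun z => Dn z ∧ A m ⊆ z) ((2 * w + (Q + 2)) * t + (Q + 2)) := by
      rcases hAm with h2 | ⟨X', hX', ⟨i, hi, hi2⟩, hXh⟩
      · exact CompM.const (v := g (A m)) (fun z hz => Al_empty h hDn h2 z hz.2 hz.1) _
      · have hp := prot_sub_mix hφ I₂ hI X'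
        obtain ⟨S, hS, hXS⟩ := Fam_sub J X' hX'
        have hc : ∑ i ∈ X' ∩ I₂, q i + 2 ≤ Q + 2 := by
          have := sum_le_sum_of_subset (f := q) (inter_subset_inter_right (u := I₂) hXS)
          have := hQ S hS
          omega
        refine CompM.query (fun z => X' ⊆ z) (hp.mono hc) (fun x y => decide_eq_true_iff) ?_ ?_
        · refine (ih (A m ∪ X') Dn hDn ?_).mono ?_ le_rfl
          · refine lt_of_le_of_lt ?_ h1
            have h5 := Po_pos hr0 hDn hi hi2 hXh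
            have h6 := Po_mono (c := c) (I₂ := I₂) (hAs m le_rfl).1 hDn
            calc Po c I₂ (A m ∪ X') Dn * (1 - 1 / (2 * r)) ^ t
                ≤ ((1 - 1 / (2 * r)) * Po c I₂ (A m) Dn) * (1 - 1 / (2 * r)) ^ t :=
                  mul_le_mul_of_nonneg_right h5 (pow_nonneg hfr t)
              _ ≤ ((1 - 1 / (2 * r)) * Po c I₂ A₀ Dn) * (1 - 1 / (2 * r)) ^ t :=
                  mul_le_mul_of_nonneg_right (mul_le_mul_of_nonneg_left h6 hfr) (pow_nonneg hfr t)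
              _ = _ := by rw [pow_succ]; ring
          · rintro z ⟨⟨h3, h4⟩, h5⟩
            exact ⟨h3, union_subset h4 h5⟩
        · refine (hkill (A m) X' (hAs m le_rfl).1 hXh).mono ?_ le_rfl
          rintro z ⟨⟨h3, h4⟩, h5⟩
          exact ⟨⟨h3, h5⟩, h4⟩
    have h2 := CompM.search (g := g) (φ := φ) (R := fun z => Dn z ∧ A₀ ⊆ z)
      (k := (2 * w + (Q + 2)) * t + (Q + 2)) I₂ hI A₀ (fun z hz => hz.2) A w 0 m (Nat.zero_le _)
      hm2 (fun i hi => (hAs i hi).2)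
      (fun i _ hi => by
        obtain ⟨h3, h4⟩ := hAi i hi
        refine (hkill (A i) (Xc i) (hAs i hi.le).1 h4).mono ?_ (Nat.le_add_right _ _)
        rintro z ⟨h6, h7, h8⟩
        refine ⟨⟨h6.1, fun h9 => h8 ?_⟩, h7⟩
        rw [h3]
        exact union_subset h7 h9)
      (fun _ => True)
      (hend.mono (fun z hz => ⟨hz.1.1, hz.2.1⟩) le_rfl)
    refine h2.mono (fun z hz => ⟨hz, by rw [hA0]; exact hz.2, trivial⟩) (le_of_eq ?_)
    ring

/-- **Protocols for compositions with few monomials.** -/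
theorem mainM {φ : ι → X → Y → Bool} {q : ι → ℕ} (hφ : ∀ i, Prot (φ i) (q i))
    (I₂ : Finset ι)
    (hI : ∀ i, i ∉ I₂ → ∃ (u : X → Bool) (v : Y → Bool), ∀ x y, φ i x y = (u x && v y))
    {g : Finset ι → Bool} {c : Finset ι → ℝ} (h : Rep g c)
    {M : Finset (Finset ι)} (hM : ∀ S, c S ≠ 0 ↔ S ∈ M) {d : ℕ} (hd : 1 ≤ d)
    (hr : M.card < 2 ^ d)
    {Q : ℕ} (hQ : ∀ S ∈ M, ∑ i ∈ S ∩ I₂, q i ≤ Q)
    (hI2 : ∀ S ∈ M, (S ∩ I₂).card ≤ d) :
    Prot (comp g φ) ((16 * d ^ 4 + (Q + 2)) * (288 * d ^ 7)) := by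
  classical
  set r : ℕ := 2 * ((2 * d ^ 2 + 2) * (2 * d ^ 2 + 1) ^ 2) with hrdef
  have hr0 : 1 ≤ r := by
    rw [hrdef]
    have : 0 < (2 * d ^ 2 + 2) * (2 * d ^ 2 + 1) ^ 2 := by positivity
    omega
  set w : ℕ := d * (2 * (2 * d ^ 2 + 1) * d + 1) + 1 with hw
  have hF : (Fam M (2 * d ^ 2 + 1) d).card < 2 ^ w := by
    calc (Fam M (2 * d ^ 2 + 1) d).card ≤ (M.card + 1) ^ (2 * (2 * d ^ 2 + 1) * d + 1) :=
          card_Fam _ _ _
      _ ≤ (2 ^ d) ^ (2 * (2 * d ^ 2 + 1) * d + 1) := Nat.pow_le_pow_left (by omega) _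
      _ = 2 ^ (d * (2 * (2 * d ^ 2 + 1) * d + 1)) := (pow_mul _ _ _).symm
      _ < 2 ^ w := Nat.pow_lt_pow_right (by norm_num) (by omega)
  have hpo : Po c I₂ ∅ (fun _ => True) < 2 ^ (2 * d) := by
    have h4 : Al c ∅ (fun _ => True) ⊆ M := by
      intro V hV
      rw [← hM]
      rw [mem_Al] at hV
      have h5 := hV.2.1
      unfold cof at h5
      have h6 : univ.filter (fun S : Finset ι => S \ ∅ = V) = {V} := by
        ext S
        simp
      rw [h6, sum_singleton] at h5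
      exact h5
    calc Po c I₂ ∅ (fun _ => True) ≤ ∑ V ∈ M, wt I₂ V :=
          sum_le_sum_of_subset_of_nonneg h4 (fun V _ _ => (wt_pos I₂ V).le)
      _ ≤ ∑ V ∈ M, (2 : ℝ) ^ d :=
          sum_le_sum fun V hV => pow_le_pow_right₀ (by norm_num) (hI2 V hV)
      _ = M.card * 2 ^ d := by rw [sum_const, nsmul_eq_mul]
      _ < 2 ^ d * 2 ^ d := mul_lt_mul_of_pos_right (by exact_mod_cast hr) (by positivity)
      _ = 2 ^ (2 * d) := by rw [two_mul, pow_add]
  have h1 := main_recM hφ I₂ hI h (fun S hS => (hM S).1 hS) hr hQ (J := d)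
    (Nat.lt_two_pow_self).le hF ((2 * r) * (2 * d)) ∅ (fun _ => True)
    (fun _ _ _ _ => trivial) (by
      rw [← hrdef, pow_mul]
      have hc : (2 * (r : ℝ)) = ((2 * r : ℕ) : ℝ) := by push_cast; ring
      rw [hc]
      have h2 : ((1 - 1 / ((2 * r : ℕ) : ℝ)) ^ (2 * r)) ^ (2 * d) ≤ (1 / 2) ^ (2 * d) := by
        refine pow_le_pow_left₀ (pow_nonneg ?_ _) (half_pow (2 * r) (by omega)) (2 * d)
        have : 1 / ((2 * r : ℕ) : ℝ) ≤ 1 := by
          rw [div_le_one (by exact_mod_cast (by omega : 0 < 2 * r))]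
          exact_mod_cast (by omega : 1 ≤ 2 * r)
        linarith
      calc Po c I₂ ∅ (fun _ => True) * ((1 - 1 / ((2 * r : ℕ) : ℝ)) ^ (2 * r)) ^ (2 * d)
          ≤ Po c I₂ ∅ (fun _ => True) * (1 / 2) ^ (2 * d) :=
            mul_le_mul_of_nonneg_left h2 (Po_nonneg _ _ _ _)
        _ < 2 ^ (2 * d) * (1 / 2) ^ (2 * d) := mul_lt_mul_of_pos_right hpo (by positivity)
        _ = 1 := by
            rw [← mul_pow]
            norm_num)
  obtain ⟨Φ, hΦ, hΦg⟩ := h1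
  have e : comp g φ = Φ := by
    funext x y
    exact (hΦg x y ⟨trivial, empty_subset _⟩).symm
  rw [e]
  refine hΦ.mono ?_
  have hd2 : 1 ≤ d ^ 2 := Nat.one_le_pow _ _ hd
  have hw2 : w ≤ 8 * d ^ 4 := by
    have e1 : w = 4 * d ^ 4 + 2 * d ^ 2 + d + 1 := by
      rw [hw]; ring
    have h3 : d ≤ d ^ 4 := Nat.le_self_pow (by norm_num) d
    have h4 : d ^ 2 ≤ d ^ 4 := Nat.pow_le_pow_right hd (by norm_num)
    have h5 : 1 ≤ d ^ 4 := Nat.one_le_pow _ _ hd
    omega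
  have hq2 : r ≤ 72 * d ^ 6 := by
    have h3 : 2 * d ^ 2 + 2 ≤ 4 * d ^ 2 := by omega
    have h4 : 2 * d ^ 2 + 1 ≤ 3 * d ^ 2 := by omega
    calc r ≤ 2 * ((4 * d ^ 2) * (3 * d ^ 2) ^ 2) :=
          Nat.mul_le_mul_left _ (Nat.mul_le_mul h3 (Nat.pow_le_pow_left h4 2))
      _ = 72 * d ^ 6 := by ring
  calc (2 * w + (Q + 2)) * (2 * r * (2 * d)) ≤ (2 * (8 * d ^ 4) + (Q + 2)) *
        (2 * (72 * d ^ 6) * (2 * d)) :=
        Nat.mul_le_mul (Nat.add_le_add_right (Nat.mul_le_mul_left _ hw2) _)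
          (Nat.mul_le_mul_right _ (Nat.mul_le_mul_left _ hq2))
    _ = _ := by ring

end Pool.Agent.N609.AndRank
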