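import Pool.Agent.N609.AndRank.Hit
import Pool.Agent.TH744.LR.Prot

/-!
# Protocols for functions of the intersection
-/

set_option autoImplicit false
set_option linter.unusedSectionVars false
set_option linter.unusedVariables false

namespace Pool.Agent.N609.AndRank

open Finset Pool.Agent.TH744.LR

variable {ι : Type} [Fintype ι] [DecidableEq ι]

/-- on the pairs `x, y` with `R (x ∩ y)` the value `g (x ∩ y)` is computed with `k` bits -/
def Comp (g : Finset ι → Bool) (R : Finset ι → Prop) (k : ℕ) : Prop :=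
  ∃ Φ : Finset ι → Finset ι → Bool, Prot Φ k ∧ ∀ x y, R (x ∩ y) → Φ x y = g (x ∩ y)

theorem Comp.mono {g : Finset ι → Bool} {R R' : Finset ι → Prop} {k k' : ℕ} (h : Comp g R k)
    (hR : ∀ z, R' z → R z) (hk : k ≤ k') : Comp g R' k' := by
  obtain ⟨Φ, h1, h2⟩ := h
  exact ⟨Φ, h1.mono hk, fun x y hxy => h2 x y (hR _ hxy)⟩

theorem Comp.const {g : Finset ι → Bool} {R : Finset ι → Prop} {v : Bool}
    (h : ∀ z, R z → g z = v) (k : ℕ) : Comp g R k :=
  ⟨fun _ _ => v, (Prot.const v).mono (Nat.zero_le k), fun x y hxy => (h _ hxy).symm⟩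

theorem prot_sub (T : Finset ι) : Prot (fun x y : Finset ι => decide (T ⊆ x ∩ y)) 2 := by
  have h := Prot.bind (Prot.alice (X := Finset ι) (Y := Finset ι) (fun x => decide (T ⊆ x)))
    (F := fun v x y => v && decide (T ⊆ y)) (b := 1) (by
      intro v
      cases v
      · simp only [Bool.false_and]
        exact (Prot.const false).mono (Nat.zero_le _)
      · simp only [Bool.true_and]
        exact Prot.bob _)
  have e : (fun x y : Finset ι => decide (T ⊆ x ∩ y)) =
      fun x y => (decide (T ⊆ x) && decide (T ⊆ y)) := by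
    funext x y
    rw [← Bool.decide_and]
    simp only [subset_inter_iff]
  rw [e]
  exact h

theorem Comp.query {g : Finset ι → Bool} {R : Finset ι → Prop} {k : ℕ} (T : Finset ι)
    (h1 : Comp g (fun z => R z ∧ T ⊆ z) k) (h0 : Comp g (fun z => R z ∧ ¬ T ⊆ z) k) :
    Comp g R (k + 2) := by
  obtain ⟨Φ1, hp1, hc1⟩ := h1
  obtain ⟨Φ0, hp0, hc0⟩ := h0
  have h := Prot.bind (prot_sub T) (F := fun v x y => if v then Φ1 x y else Φ0 x y) (b := k) (by
    intro v
    cases v
    · simpa using hp0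
    · simpa using hp1)
  refine ⟨_, h.mono (by omega), fun x y hxy => ?_⟩
  by_cases hT : T ⊆ x ∩ y
  · simp only [hT, decide_true, if_true]
    exact hc1 x y ⟨hxy, hT⟩
  · simp only [hT, decide_false]
    exact hc0 x y ⟨hxy, hT⟩

/-- binary search -/
theorem Comp.search {g : Finset ι → Bool} {R : Finset ι → Prop} {k : ℕ} (A : ℕ → Finset ι)
    (t : ℕ) : ∀ (a b : ℕ), a ≤ b → b < a + 2 ^ t →
      (∀ i, a ≤ i → i < b → Comp g (fun z => R z ∧ A i ⊆ z ∧ ¬ A (i + 1) ⊆ z) k) →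
      ∀ Q : Finset ι → Prop, Comp g (fun z => R z ∧ A b ⊆ z ∧ Q z) k →
      Comp g (fun z => R z ∧ A a ⊆ z ∧ Q z) (k + 2 * t) := by
  induction t with
  | zero =>
    intro a b hab hb _ Q hQ
    have : b = a := by
      rw [pow_zero] at hb
      omega
    subst this
    simpa using hQ
  | succ t ih =>
    intro a b hab hb hi Q hQ
    by_cases hb' : b < a + 2 ^ t
    · exact (ih a b hab hb' hi Q hQ).mono (fun _ h => h) (by omega)
    · rw [not_lt] at hb'
      have hpos : 0 < 2 ^ t := by positivity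
      have h1 := ih (a + 2 ^ t) b hb' (by rw [pow_succ] at hb; omega)
        (fun i h2 h3 => hi i (by omega) h3) Q hQ
      have h0 := ih a (a + 2 ^ t - 1) (by omega) (by omega)
        (fun i h2 h3 => hi i h2 (by omega)) (fun z => ¬ A (a + 2 ^ t) ⊆ z) (by
          have h2 := hi (a + 2 ^ t - 1) (by omega) (by omega)
          have e : a + 2 ^ t - 1 + 1 = a + 2 ^ t := by omega
          rw [e] at h2
          exact h2)
      have h3 := Comp.query (R := fun z => R z ∧ A a ⊆ z ∧ Q z) (A (a + 2 ^ t))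
        (h1.mono (fun z hz => ⟨hz.1.1, hz.2, hz.1.2.2⟩) le_rfl)
        (h0.mono (fun z hz => ⟨hz.1.1, hz.1.2.1, hz.2⟩) le_rfl)
      exact h3.mono (fun _ h => h) (by omega)

/-- the coefficients above `A` -/
noncomputable def cof (c : Finset ι → ℝ) (A V : Finset ι) : ℝ :=
  ∑ S ∈ univ.filter (fun S => S \ A = V), c S

open Classical in
/-- the monomials above `A` which may be contained in the intersection -/
noncomputable def Al (c : Finset ι → ℝ) (A : Finset ι) (Dn : Finset ι → Prop) :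
    Finset (Finset ι) :=
  univ.filter (fun V => V.Nonempty ∧ cof c A V ≠ 0 ∧ Dn (A ∪ V))

theorem mem_Al {c : Finset ι → ℝ} {A : Finset ι} {Dn : Finset ι → Prop} {V : Finset ι} :
    V ∈ Al c A Dn ↔ V.Nonempty ∧ cof c A V ≠ 0 ∧ Dn (A ∪ V) := by
  simp [Al]

theorem Al_empty {g : Finset ι → Bool} {c : Finset ι → ℝ} (h : Rep g c) {A : Finset ι}
    {Dn : Finset ι → Prop} (hDn : ∀ z z', z' ⊆ z → Dn z → Dn z') (hA : Al c A Dn = ∅) :
    ∀ z, A ⊆ z → Dn z → g z = g A := by
  intro z hAz hz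
  have h1 : bv (g (A ∪ (z \ A))) =
      ∑ V ∈ (z \ A).powerset, ∑ S ∈ univ.filter (fun S : Finset ι => S \ A = V), c S :=
    rep_shift h A (z \ A)
  rw [union_sdiff_of_subset hAz] at h1
  have h2 : ∑ V ∈ (z \ A).powerset, ∑ S ∈ univ.filter (fun S : Finset ι => S \ A = V), c S =
      cof c A ∅ := by
    refine sum_eq_single ∅ ?_ ?_
    · intro V hV hne
      by_contra hc
      have h3 : V ∈ Al c A Dn := by
        rw [mem_Al]
        refine ⟨nonempty_iff_ne_empty.2 hne, hc, hDn z _ ?_ hz⟩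
        rw [mem_powerset] at hV
        exact union_subset hAz (hV.trans sdiff_subset)
      rw [hA] at h3
      simp at h3
    · intro hh
      exact absurd (empty_mem_powerset _) hh
  rw [h2] at h1
  have h4 := (rep_shift h A).empty
  rw [union_empty] at h4
  have h5 : bv (g z) = bv (g A) := by
    rw [h1, ← h4]
    rfl
  revert h5
  unfold bv
  cases g z <;> cases g A <;> simp

theorem Al_mono {c : Finset ι → ℝ} {A A' : Finset ι} (hAA : A ⊆ A')
    {Dn : Finset ι → Prop} (hDn : ∀ z z', z' ⊆ z → Dn z → Dn z') :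
    (Al c A' Dn).card ≤ (Al c A Dn).card := by
  refine (card_le_card (t := (Al c A Dn).image (fun V => V \ A')) ?_).trans card_image_le
  intro V' hV'
  rw [mem_Al] at hV'
  obtain ⟨hne, hc, hd⟩ := hV'
  have h1 : cof c A' V' = ∑ V ∈ univ.filter (fun V => V \ A' = V'), cof c A V := by
    unfold cof
    rw [← sum_biUnion]
    · refine sum_congr ?_ fun _ _ => rfl
      ext S
      simp only [mem_filter, mem_univ, true_and, mem_biUnion]
      constructor
      · intro hS
        refine ⟨S \ A, ?_, rfl⟩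
        rw [← hS, sdiff_sdiff_left]
        congr 1
        exact union_eq_right.2 hAA
      · rintro ⟨V, hV, hS⟩
        rw [← hV, ← hS, sdiff_sdiff_left]
        congr 1
        exact (union_eq_right.2 hAA).symm
    · intro V _ W _ hVW
      rw [Function.onFun, disjoint_left]
      intro S hS hS'
      rw [mem_filter] at hS hS'
      exact hVW (hS.2.symm.trans hS'.2)
  rw [h1] at hc
  obtain ⟨V, hV, hVc⟩ := exists_ne_zero_of_sum_ne_zero hc
  rw [mem_filter] at hV
  rw [mem_image]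
  refine ⟨V, ?_, hV.2⟩
  rw [mem_Al]
  refine ⟨?_, hVc, hDn _ _ ?_ hd⟩
  · rw [← hV.2] at hne
    exact hne.mono sdiff_subset
  · refine union_subset (hAA.trans subset_union_left) ?_
    rw [← hV.2]
    intro x hx
    by_cases hxA : x ∈ A'
    · exact mem_union_left _ hxA
    · exact mem_union_right _ (mem_sdiff.2 ⟨hx, hxA⟩)

theorem chain_cons {c : Finset ι → ℝ} {Dn : Finset ι → Prop} {n m q : ℕ} {A₀ X₀ : Finset ι}
    {A X : ℕ → Finset ι} (hm : m ≤ n) (hA0 : A 0 = A₀ ∪ X₀) (hAm : Al c (A m) Dn = ∅)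
    (hAs : ∀ i, A₀ ∪ X₀ ⊆ A i)
    (hAi : ∀ i < m, A (i + 1) = A i ∪ X i ∧
      (Al c (A i) Dn).card ≤ q * ((Al c (A i) Dn).filter (fun V => X i \ A i ⊆ V)).card)
    (hX : (Al c A₀ Dn).card ≤ q * ((Al c A₀ Dn).filter (fun V => X₀ \ A₀ ⊆ V)).card) :
    ∃ (m' : ℕ) (A' X' : ℕ → Finset ι), m' ≤ n + 1 ∧ A' 0 = A₀ ∧ Al c (A' m') Dn = ∅ ∧
        (∀ i, A₀ ⊆ A' i) ∧
        ∀ i < m', A' (i + 1) = A' i ∪ X' i ∧
          (Al c (A' i) Dn).card ≤ q *
            ((Al c (A' i) Dn).filter (fun V => X' i \ A' i ⊆ V)).card := by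
  let A' : ℕ → Finset ι := fun i => match i with
    | 0 => A₀
    | i + 1 => A i
  let X' : ℕ → Finset ι := fun i => match i with
    | 0 => X₀
    | i + 1 => X i
  refine ⟨m + 1, A', X', by omega, rfl, hAm, ?_, ?_⟩
  · intro i
    cases i with
    | zero => exact subset_refl _
    | succ i => exact subset_union_left.trans (hAs i)
  · intro i hi
    cases i with
    | zero => exact ⟨hA0, hX⟩
    | succ i => exact hAi i (by omega)

/-- the chain of sets which are asked for as long as the answer is positive -/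
theorem exists_chain {g : Finset ι → Bool} {c : Finset ι → ℝ} (h : Rep g c)
    {M : Finset (Finset ι)} (hM : ∀ S, c S ≠ 0 → S ∈ M) {d : ℕ} (hr : M.card < 2 ^ d)
    {J : ℕ} (hJ : d ≤ 2 ^ J) {Dn : Finset ι → Prop} (n : ℕ) :
    ∀ A₀ : Finset ι, ((Fam M (2 * d ^ 2 + 1) J).filter (fun X => ¬ X ⊆ A₀)).card ≤ n →
      ∃ (m : ℕ) (A X : ℕ → Finset ι), m ≤ n ∧ A 0 = A₀ ∧ Al c (A m) Dn = ∅ ∧
        (∀ i, A₀ ⊆ A i) ∧
        ∀ i < m, A (i + 1) = A i ∪ X i ∧
          (Al c (A i) Dn).card ≤ (2 * ((2 * d ^ 2 + 2) * (2 * d ^ 2 + 1) ^ 2)) *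
            ((Al c (A i) Dn).filter (fun V => X i \ A i ⊆ V)).card := by
  classical
  induction n with
  | zero =>
    intro A₀ hA₀
    refine ⟨0, fun _ => A₀, fun _ => ∅, le_rfl, rfl, ?_, fun _ => subset_refl _,
      fun i hi => absurd hi (by omega)⟩
    by_contra hne
    obtain ⟨X, hX, hXne, -⟩ := hitting h hM hr hJ A₀ (Al c A₀ Dn) (nonempty_iff_ne_empty.2 hne)
      (fun V hV => by
        rw [mem_Al] at hV
        obtain ⟨B, hB, hBg⟩ := (rep_shift h A₀).nonconst hV.2.1 hV.1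
        exact ⟨B, hB, by simpa using hBg⟩)
    have h1 : X ∈ (Fam M (2 * d ^ 2 + 1) J).filter (fun X => ¬ X ⊆ A₀) :=
      mem_filter.2 ⟨hX, sdiff_nonempty.1 hXne⟩
    rw [Nat.le_zero, card_eq_zero] at hA₀
    rw [hA₀] at h1
    simp at h1
  | succ n ih =>
    intro A₀ hA₀
    by_cases hne : Al c A₀ Dn = ∅
    · exact ⟨0, fun _ => A₀, fun _ => ∅, Nat.zero_le _, rfl, hne, fun _ => subset_refl _,
        fun i hi => absurd hi (by omega)⟩
    · obtain ⟨X, hX, hXne, hXc⟩ := hitting h hM hr hJ A₀ (Al c A₀ Dn)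
        (nonempty_iff_ne_empty.2 hne) (fun V hV => by
          rw [mem_Al] at hV
          obtain ⟨B, hB, hBg⟩ := (rep_shift h A₀).nonconst hV.2.1 hV.1
          exact ⟨B, hB, by simpa using hBg⟩)
      have h2 : ((Fam M (2 * d ^ 2 + 1) J).filter (fun Y => ¬ Y ⊆ A₀ ∪ X)).card <
          ((Fam M (2 * d ^ 2 + 1) J).filter (fun Y => ¬ Y ⊆ A₀)).card := by
        refine card_lt_card ?_
        rw [Finset.ssubset_iff_subset_ne]
        constructor
        · intro Y hY
          rw [mem_filter] at hY ⊢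
          exact ⟨hY.1, fun h3 => hY.2 (h3.trans subset_union_left)⟩
        · intro he
          have h3 : X ∈ (Fam M (2 * d ^ 2 + 1) J).filter (fun Y => ¬ Y ⊆ A₀) :=
            mem_filter.2 ⟨hX, sdiff_nonempty.1 hXne⟩
          rw [← he, mem_filter] at h3
          exact h3.2 subset_union_right
      obtain ⟨m, A, Y, hm, hA0, hAm, hAs, hAi⟩ := ih (A₀ ∪ X) (by omega)
      exact chain_cons hm hA0 hAm hAs hAi hXc

theorem Al_kill {c : Finset ι → ℝ} {A X : Finset ι} {Dn : Finset ι → Prop} {q : ℕ} (hq : 0 < q)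
    (h : (Al c A Dn).card ≤ q * ((Al c A Dn).filter (fun V => X \ A ⊆ V)).card) :
    ((Al c A (fun z => Dn z ∧ ¬ X ⊆ z)).card : ℝ) ≤ (1 - 1 / (q : ℝ)) * (Al c A Dn).card := by
  classical
  have h1 : (Al c A (fun z => Dn z ∧ ¬ X ⊆ z)).card +
      ((Al c A Dn).filter (fun V => X \ A ⊆ V)).card ≤ (Al c A Dn).card := by
    rw [← card_filter_add_card_filter_not (s := Al c A Dn) (fun V => X \ A ⊆ V), add_comm]
    refine Nat.add_le_add_left (card_le_card ?_) _
    intro V hV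
    rw [mem_Al] at hV
    rw [mem_filter, mem_Al]
    refine ⟨⟨hV.1, hV.2.1, hV.2.2.1⟩, fun h2 => hV.2.2.2 ?_⟩
    rwa [← sdiff_sub]
  have hq0 : (0 : ℝ) < q := by exact_mod_cast hq
  have h2 : ((Al c A (fun z => Dn z ∧ ¬ X ⊆ z)).card : ℝ) +
      ((Al c A Dn).filter (fun V => X \ A ⊆ V)).card ≤ (Al c A Dn).card := by exact_mod_cast h1
  have h3 : ((Al c A Dn).card : ℝ) ≤ q * ((Al c A Dn).filter (fun V => X \ A ⊆ V)).card := by
    exact_mod_cast h
  have h4 : ((Al c A Dn).card : ℝ) / q ≤ ((Al c A Dn).filter (fun V => X \ A ⊆ V)).card := by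
    rw [div_le_iff₀ hq0]
    linarith
  have h5 : (1 - 1 / (q : ℝ)) * (Al c A Dn).card =
      (Al c A Dn).card - (Al c A Dn).card / q := by ring
  rw [h5]
  linarith

theorem main_rec {g : Finset ι → Bool} {c : Finset ι → ℝ} (h : Rep g c)
    {M : Finset (Finset ι)} (hM : ∀ S, c S ≠ 0 → S ∈ M) {d : ℕ} (hr : M.card < 2 ^ d)
    {J : ℕ} (hJ : d ≤ 2 ^ J) {w : ℕ} (hw : (Fam M (2 * d ^ 2 + 1) J).card < 2 ^ w) (t : ℕ) :
    ∀ (A : Finset ι) (Dn : Finset ι → Prop), (∀ z z', z' ⊆ z → Dn z → Dn z') →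
      ((Al c A Dn).card : ℝ) *
        (1 - 1 / ((2 * ((2 * d ^ 2 + 2) * (2 * d ^ 2 + 1) ^ 2) : ℕ) : ℝ)) ^ t < 1 →
      Comp g (fun z => Dn z ∧ A ⊆ z) (2 * w * t) := by
  classical
  set q : ℕ := 2 * ((2 * d ^ 2 + 2) * (2 * d ^ 2 + 1) ^ 2) with hq
  have hq0 : 0 < q := by positivity
  induction t with
  | zero =>
    intro A Dn hDn h1
    rw [pow_zero, mul_one] at h1
    have h2 : (Al c A Dn).card = 0 := by
      have : (Al c A Dn).card < 1 := by exact_mod_cast h1
      omega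
    rw [card_eq_zero] at h2
    exact Comp.const (v := g A) (fun z hz => Al_empty h hDn h2 z hz.2 hz.1) _
  | succ t ih =>
    intro A₀ Dn hDn h1
    obtain ⟨m, A, X, hm, hA0, hAm, hAs, hAi⟩ := exists_chain (Dn := Dn) h hM hr hJ _ A₀ le_rfl
    have hm2 : m < 0 + 2 ^ w := by
      rw [zero_add]
      exact lt_of_le_of_lt (hm.trans (card_filter_le _ _)) hw
    have hfr : (0 : ℝ) ≤ 1 - 1 / (q : ℝ) := by
      have : 1 / (q : ℝ) ≤ 1 := by
        rw [div_le_one (by exact_mod_cast hq0)]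
        exact_mod_cast hq0
      linarith
    have h2 := Comp.search (g := g) (R := Dn) (k := 2 * w * t) A w 0 m (Nat.zero_le _) hm2
      (fun i _ hi => by
        obtain ⟨h3, h4⟩ := hAi i hi
        have h5 := Al_kill hq0 h4
        refine (ih (A i) (fun z => Dn z ∧ ¬ X i ⊆ z) ?_ ?_).mono ?_ le_rfl
        · intro z z' hz h6
          exact ⟨hDn z z' hz h6.1, fun h7 => h6.2 (h7.trans hz)⟩
        · refine lt_of_le_of_lt ?_ h1
          have h6 : ((Al c (A i) Dn).card : ℝ) ≤ (Al c A₀ Dn).card := by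
            exact_mod_cast Al_mono (hAs i) hDn
          calc ((Al c (A i) (fun z => Dn z ∧ ¬ X i ⊆ z)).card : ℝ) * (1 - 1 / (q : ℝ)) ^ t
              ≤ ((1 - 1 / (q : ℝ)) * (Al c (A i) Dn).card) * (1 - 1 / (q : ℝ)) ^ t :=
                mul_le_mul_of_nonneg_right h5 (pow_nonneg hfr t)
            _ ≤ ((1 - 1 / (q : ℝ)) * (Al c A₀ Dn).card) * (1 - 1 / (q : ℝ)) ^ t :=
                mul_le_mul_of_nonneg_right (mul_le_mul_of_nonneg_left h6 hfr) (pow_nonneg hfr t)
            _ = _ := by rw [pow_succ]; ring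
        · rintro z ⟨h6, h7, h8⟩
          refine ⟨⟨h6, fun h9 => h8 ?_⟩, h7⟩
          rw [h3]
          exact union_subset h7 h9)
      (fun _ => True)
      (Comp.const (v := g (A m)) (fun z hz => Al_empty h hDn hAm z hz.2.1 hz.1) _)
    refine h2.mono (fun z hz => ⟨hz.1, by rw [hA0]; exact hz.2, trivial⟩) (le_of_eq ?_)
    ring

theorem half_pow (q : ℕ) (hq : 1 ≤ q) : (1 - 1 / (q : ℝ)) ^ q ≤ 1 / 2 := by
  rcases Nat.lt_or_ge 1 q with h | h
  · have hq0 : (0 : ℝ) < q := by exact_mod_cast hq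
    have hq1 : (0 : ℝ) < (q : ℝ) - 1 := by
      have : (1 : ℝ) < q := by exact_mod_cast h
      linarith
    have h1 : (2 : ℝ) ≤ ((q : ℝ) / (q - 1)) ^ q := by
      have h2 := one_add_mul_le_pow (a := 1 / ((q : ℝ) - 1)) (by
        have : 0 ≤ 1 / ((q : ℝ) - 1) := by positivity
        linarith) q
      have h3 : 1 + 1 / ((q : ℝ) - 1) = q / (q - 1) := by
        field_simp
        ring
      rw [h3] at h2
      refine le_trans ?_ h2
      have h4 : 1 ≤ (q : ℝ) * (1 / (q - 1)) := by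
        rw [mul_one_div, le_div_iff₀ hq1]
        linarith
      linarith
    have h5 : (1 - 1 / (q : ℝ)) = ((q : ℝ) / ((q : ℝ) - 1))⁻¹ := by
      rw [inv_div]
      field_simp
    rw [h5, inv_pow, one_div]
    exact inv_anti₀ (by norm_num) h1
  · have : q = 1 := by omega
    subst this
    norm_num

/-- **Protocols for functions of the intersection with few monomials.** -/
theorem main {g : Finset ι → Bool} {c : Finset ι → ℝ} (h : Rep g c)
    {M : Finset (Finset ι)} (hM : ∀ S, c S ≠ 0 → S ∈ M) {d : ℕ} (hd : 1 ≤ d)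
    (hr : M.card < 2 ^ d) : Prot (fun x y => g (x ∩ y)) (1152 * d ^ 11) := by
  classical
  set q : ℕ := 2 * ((2 * d ^ 2 + 2) * (2 * d ^ 2 + 1) ^ 2) with hq
  have hq0 : 1 ≤ q := by
    rw [hq]
    have : 0 < (2 * d ^ 2 + 2) * (2 * d ^ 2 + 1) ^ 2 := by positivity
    omega
  set w : ℕ := d * (2 * (2 * d ^ 2 + 1) * d + 1) + 1 with hw
  have hF : (Fam M (2 * d ^ 2 + 1) d).card < 2 ^ w := by
    calc (Fam M (2 * d ^ 2 + 1) d).card ≤ (M.card + 1) ^ (2 * (2 * d ^ 2 + 1) * d + 1) :=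
          card_Fam _ _ _
      _ ≤ (2 ^ d) ^ (2 * (2 * d ^ 2 + 1) * d + 1) := Nat.pow_le_pow_left (by omega) _
      _ = 2 ^ (d * (2 * (2 * d ^ 2 + 1) * d + 1)) := (pow_mul _ _ _).symm
      _ < 2 ^ w := Nat.pow_lt_pow_right (by norm_num) (by omega)
  have h1 := main_rec h hM hr (J := d) (Nat.lt_two_pow_self).le hF (q * d) ∅ (fun _ => True)
    (fun _ _ _ _ => trivial) (by
      rw [← hq, pow_mul]
      have h2 : ((1 - 1 / (q : ℝ)) ^ q) ^ d ≤ (1 / 2) ^ d := by
        refine pow_le_pow_left₀ (pow_nonneg ?_ _) (half_pow q hq0) d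
        have : 1 / (q : ℝ) ≤ 1 := by
          rw [div_le_one (by exact_mod_cast hq0)]
          exact_mod_cast hq0
        linarith
      have h3 : ((Al c ∅ (fun _ => True)).card : ℝ) < 2 ^ d := by
        have h4 : (Al c ∅ (fun _ => True)).card ≤ M.card := by
          refine card_le_card fun V hV => hM V ?_
          rw [mem_Al] at hV
          have h5 := hV.2.1
          unfold cof at h5
          have h6 : univ.filter (fun S : Finset ι => S \ ∅ = V) = {V} := by
            ext S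
            simp
          rw [h6, sum_singleton] at h5
          exact h5
        exact_mod_cast lt_of_le_of_lt h4 hr
      calc ((Al c ∅ (fun _ => True)).card : ℝ) * ((1 - 1 / (q : ℝ)) ^ q) ^ d
          ≤ (Al c ∅ (fun _ => True)).card * (1 / 2) ^ d :=
            mul_le_mul_of_nonneg_left h2 (Nat.cast_nonneg _)
        _ < 2 ^ d * (1 / 2) ^ d := mul_lt_mul_of_pos_right h3 (by positivity)
        _ = 1 := by
            rw [← mul_pow]
            norm_num)
  obtain ⟨Φ, hΦ, hΦg⟩ := h1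
  have e : (fun x y => g (x ∩ y)) = Φ := by
    funext x y
    exact (hΦg x y ⟨trivial, empty_subset _⟩).symm
  rw [e]
  refine hΦ.mono ?_
  have hd2 : 1 ≤ d ^ 2 := Nat.one_le_pow _ _ hd
  have hw2 : w ≤ 8 * d ^ 4 := by
    have e1 : w = 4 * d ^ 4 + 2 * d ^ 2 + d + 1 := by
      rw [hw]; ring
    have h3 : d ≤ d ^ 4 := Nat.le_self_pow (by norm_num) d
    have h4 : d ^ 2 ≤ d ^ 4 := Nat.pow_le_pow_right hd (by norm_num)
    have h5 : 1 ≤ d ^ 4 := Nat.one_le_pow _ _ hd
    omega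
  have hq2 : q ≤ 72 * d ^ 6 := by
    have h3 : 2 * d ^ 2 + 2 ≤ 4 * d ^ 2 := by omega
    have h4 : 2 * d ^ 2 + 1 ≤ 3 * d ^ 2 := by omega
    calc q ≤ 2 * ((4 * d ^ 2) * (3 * d ^ 2) ^ 2) :=
          Nat.mul_le_mul_left _ (Nat.mul_le_mul h3 (Nat.pow_le_pow_left h4 2))
      _ = 72 * d ^ 6 := by ring
  calc 2 * w * (q * d) ≤ 2 * (8 * d ^ 4) * (72 * d ^ 6 * d) :=
        Nat.mul_le_mul (Nat.mul_le_mul_left _ hw2) (Nat.mul_le_mul_right _ hq2)
    _ = 1152 * d ^ 11 := by ring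

end Pool.Agent.N609.AndRank
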